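import Pool.Agent.Braid60.Defs

/-!
Module DECOMP. Normal form of words in the six letters: a product of conjugates of points by
words in the lines, times a word in the lines.
-/

set_option autoImplicit false

namespace Braid60

/-- words in the lines commuting with the point `k` -/
def St (k : Fin 3) : Subgroup (FreeGroup (Fin 3)) :=
  Subgroup.closure (FreeGroup.of '' {j : Fin 3 | j ≠ k})

/-- index set of the conjugates of the points -/
abbrev TT := Σ k : Fin 3, FreeGroup (Fin 3) ⧸ St k

/-- the conjugate of a point -/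
noncomputable def Hex.pt {G : Type} [Group G] (X : Hex G) (t : TT) : G :=
  X.line t.2.out * X.p t.1 * (X.line t.2.out)⁻¹

/-- lines in `St k` commute with the point `k` -/
theorem Hex.comm_St {G : Type} [Group G] (X : Hex G) (k : Fin 3) (g : FreeGroup (Fin 3))
    (hg : g ∈ St k) : Commute (X.line g) (X.p k) := by
  refine Subgroup.closure_induction (p := fun x _ => Commute (X.line x) (X.p k))
    ?_ ?_ ?_ ?_ hg
  · rintro x ⟨j, hj, rfl⟩
    simp only [Hex.line, FreeGroup.lift_apply_of]
    exact X.comm j k hj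
  · simp
  · intro x y _ _ hx hy
    rw [map_mul]
    exact hx.mul_left hy
  · intro x _ hx
    rw [map_inv]
    exact hx.inv_left

theorem Hex.pt_mk {G : Type} [Group G] (X : Hex G) (k : Fin 3) (g : FreeGroup (Fin 3)) :
    X.pt ⟨k, QuotientGroup.mk g⟩ = X.line g * X.p k * (X.line g)⁻¹ := by
  obtain ⟨h, hh⟩ := QuotientGroup.mk_out_eq_mul (St k) g
  have hc : X.line (h : FreeGroup (Fin 3)) * X.p k = X.p k * X.line (h : FreeGroup (Fin 3)) :=
    X.comm_St k h h.2
  simp only [Hex.pt]
  rw [hh, map_mul, mul_assoc (X.line g), hc]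
  group

/-- the action of a word in the lines on the index set -/
def actT (w : FreeGroup (Fin 3)) (t : TT) : TT := ⟨t.1, w • t.2⟩

theorem Hex.pt_act {G : Type} [Group G] (X : Hex G) (w : FreeGroup (Fin 3)) (t : TT) :
    X.pt (actT w t) = X.line w * X.pt t * (X.line w)⁻¹ := by
  obtain ⟨k, q⟩ := t
  obtain ⟨g, rfl⟩ := QuotientGroup.mk_surjective q
  have h1 : actT w ⟨k, QuotientGroup.mk g⟩ = ⟨k, QuotientGroup.mk (w * g)⟩ := rfl
  rw [h1, X.pt_mk, X.pt_mk, map_mul]
  group

theorem Hex.lift_act {G : Type} [Group G] (X : Hex G) (w : FreeGroup (Fin 3))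
    (ν : FreeGroup TT) :
    FreeGroup.lift X.pt (FreeGroup.map (actT w) ν)
      = X.line w * FreeGroup.lift X.pt ν * (X.line w)⁻¹ := by
  have h : (FreeGroup.lift X.pt).comp (FreeGroup.map (actT w))
      = (MulAut.conj (X.line w)).toMonoidHom.comp (FreeGroup.lift X.pt) := by
    ext t
    simp [X.pt_act]
  have h2 := DFunLike.congr_fun h ν
  simpa using h2

theorem decomp (W : FreeGroup Ltr) : ∃ (ν : FreeGroup TT) (w : FreeGroup (Fin 3)),
    ∀ (G : Type) [Group G] (X : Hex G), X.ev W = FreeGroup.lift X.pt ν * X.line w := by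
  induction W using FreeGroup.induction_on with
  | C1 => exact ⟨1, 1, fun G _ X => by simp⟩
  | of x =>
    rcases x with j | k
    · exact ⟨1, FreeGroup.of j, fun G _ X => by simp [Hex.ev, Hex.line]⟩
    · refine ⟨FreeGroup.of ⟨k, QuotientGroup.mk 1⟩, 1, fun G _ X => ?_⟩
      simp only [Hex.ev, FreeGroup.lift_apply_of, Sum.elim_inr, map_one, mul_one, X.pt_mk,
        one_mul, inv_one]
  | inv_of x _ =>
    rcases x with j | k
    · exact ⟨1, (FreeGroup.of j)⁻¹, fun G _ X => by simp [Hex.ev, Hex.line]⟩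
    · refine ⟨(FreeGroup.of ⟨k, QuotientGroup.mk 1⟩)⁻¹, 1, fun G _ X => ?_⟩
      simp only [Hex.ev, FreeGroup.lift_apply_of, Sum.elim_inr, map_one, mul_one, X.pt_mk,
        one_mul, inv_one, map_inv]
  | mul x y hx hy =>
    obtain ⟨ν₁, w₁, h₁⟩ := hx
    obtain ⟨ν₂, w₂, h₂⟩ := hy
    refine ⟨ν₁ * FreeGroup.map (actT w₁) ν₂, w₁ * w₂, fun G _ X => ?_⟩
    rw [map_mul, h₁ G X, h₂ G X, map_mul, map_mul, X.lift_act]
    group

end Braid60
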