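import Pool.Agent.Braid60.BraidHex
import Pool.Agent.Braid60.Decomp

/-!
Module AFFINE. The affine action of `B_4` on `ℤ²`:
`σ₁ (i,j) = (i+j,j)`, `σ₂ (i,j) = (i,j-i)`, `σ₃ (i,j) = (i+j+1,j)`.

Barycentric coordinates `L (i,j) = (1-i+j, i, -j)` (sum 1). The points of the hexagon act
trivially; the `m`-th power of the line `r k` acts by `L_{k+1} += 4 m L_k`, `L_{k+2} -= 4 m L_k`.
The point `k` of the hexagon corresponds to the unit vector `pt k`.

Ping-pong: `X_k^ε = {ε L_k L_{k+1} > L_k², - ε L_k L_{k+2} > L_k²}`; then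
`(r k)^ε` maps `X_l^δ` into `X_k^ε` unless `(l,δ) = (k,-ε)`. For a reduced word `w`, either
`w ∈ St k` or `w • pt k ∈ X_(first letter)`, and a nonempty reduced word moves the point
`L = (1,1,-1)`, i.e. `(i,j) = (1,1)`, into `X_(first letter)`.
-/

set_option autoImplicit false

namespace Braid60

/-- `σ₁ (i,j) = (i+j,j)` -/
def A1 : Equiv.Perm (ℤ × ℤ) where
  toFun x := (x.1 + x.2, x.2)
  invFun x := (x.1 - x.2, x.2)
  left_inv x := by ext <;> simp
  right_inv x := by ext <;> simp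

/-- `σ₂ (i,j) = (i,j-i)` -/
def A2 : Equiv.Perm (ℤ × ℤ) where
  toFun x := (x.1, x.2 - x.1)
  invFun x := (x.1, x.2 + x.1)
  left_inv x := by ext <;> simp
  right_inv x := by ext <;> simp

/-- `σ₃ (i,j) = (i+j+1,j)` -/
def A3 : Equiv.Perm (ℤ × ℤ) where
  toFun x := (x.1 + x.2 + 1, x.2)
  invFun x := (x.1 - x.2 - 1, x.2)
  left_inv x := by ext <;> simp <;> ring
  right_inv x := by ext <;> simp <;> ring

/-- the affine action of the braid group -/
def aff : B4 →* Equiv.Perm (ℤ × ℤ) :=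
  homOf ![A1, A2, A3]
    (by ext x <;> simp [A1, A2, Equiv.Perm.mul_apply])
    (by ext x <;> simp [A2, A3, Equiv.Perm.mul_apply] <;> ring)
    (by ext x <;> simp [A1, A3, Equiv.Perm.mul_apply] <;> ring)

/-- the positions of the three points -/
def pt : Fin 3 → ℤ × ℤ := ![(0, 0), (1, 0), (0, -1)]

theorem aff_s (i : Fin 3) : aff (s i) = (![A1, A2, A3] : Fin 3 → Equiv.Perm (ℤ × ℤ)) i :=
  homOf_s _ _ _ _ i

theorem A12 (x : ℤ × ℤ) : (A1 * A2) x = (x.2, x.2 - x.1) := by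
  ext <;> simp [A1, A2]

theorem A12_6 : (A1 * A2) ^ 6 = 1 := by
  ext x <;> simp only [pow_succ, pow_zero, one_mul, Equiv.Perm.mul_apply (_ * _), A12,
    Equiv.Perm.coe_one, id_eq] <;> simp [Equiv.Perm.mul_apply, A1, A2]

theorem A23 (x : ℤ × ℤ) : (A2 * A3) x = (x.1 + x.2 + 1, - x.1 - 1) := by
  ext <;> simp [A2, A3]
  ring

theorem A23_6 : (A2 * A3) ^ 6 = 1 := by
  ext x <;> simp [pow_succ, Equiv.Perm.mul_apply, A2, A3] <;> ring

/-- the points of the hexagon act trivially -/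
theorem aff_point (k : Fin 3) : aff (braidHex.p k) = 1 := by
  have h12 : (aff (s 0) * aff (s 1)) ^ 6 = 1 := by
    rw [aff_s, aff_s]; exact A12_6
  have h23 : (aff (s 1) * aff (s 2)) ^ 6 = 1 := by
    rw [aff_s, aff_s]; exact A23_6
  change aff (bp k) = 1
  fin_cases k
  · change aff (((s 0 * s 1) ^ 6)⁻¹) = 1
    rw [map_inv, map_pow, map_mul, h12, inv_one]
  · change aff (s 2 * ((s 0 * s 1) ^ 6)⁻¹ * (s 2)⁻¹) = 1
    rw [map_mul, map_mul, map_inv, map_inv, map_pow, map_mul, h12, inv_one, mul_one,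
      mul_inv_cancel]
  · change aff (((s 1 * s 2) ^ 6)⁻¹) = 1
    rw [map_inv, map_pow, map_mul, h23, inv_one]

/-- barycentric coordinates -/
def bary (z : ℤ × ℤ) : Fin 3 → ℤ := ![1 - z.1 + z.2, z.1, -z.2]

/-- the sign of a letter -/
def sg (b : Bool) : ℤ := if b then 1 else -1

/-- the translation of a line -/
def Rk (k : Fin 3) (m : ℤ) (z : ℤ × ℤ) : ℤ × ℤ :=
  (![(z.1 + 4 * m * bary z 0, z.2 + 4 * m * bary z 0), (z.1, z.2 - 4 * m * z.1),
    (z.1 + 4 * m * z.2, z.2)] : Fin 3 → ℤ × ℤ) k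

theorem bary_Rk (k : Fin 3) (m : ℤ) (z : ℤ × ℤ) :
    bary (Rk k m z) k = bary z k ∧ bary (Rk k m z) (k + 1) = bary z (k + 1) + 4 * m * bary z k ∧
    bary (Rk k m z) (k + 2) = bary z (k + 2) - 4 * m * bary z k := by
  fin_cases k <;> refine ⟨?_, ?_, ?_⟩ <;> simp [Rk, bary] <;> ring

theorem aff_r (k : Fin 3) (z : ℤ × ℤ) : aff (braidHex.r k) z = Rk k 1 z := by
  change aff (br k) z = _
  fin_cases k
  · change aff (s 2 * s 1 ^ 4 * (s 2)⁻¹) z = _
    rw [map_mul, map_mul, map_inv, map_pow, aff_s, aff_s]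
    change (A3 * A2 ^ 4 * A3⁻¹) z = _
    ext <;> simp [pow_succ, A2, A3, Rk, bary, Equiv.Perm.mul_apply, Equiv.Perm.inv_def] <;> ring
  · change aff (s 1 ^ 4) z = _
    rw [map_pow, aff_s]
    change (A2 ^ 4) z = _
    ext <;> simp [pow_succ, A2, Rk, Equiv.Perm.mul_apply] <;> ring
  · change aff (s 0 ^ 4) z = _
    rw [map_pow, aff_s]
    change (A1 ^ 4) z = _
    ext <;> simp [pow_succ, A1, Rk, Equiv.Perm.mul_apply] <;> ring

theorem Rk_Rk (k : Fin 3) (m n : ℤ) (z : ℤ × ℤ) : Rk k m (Rk k n z) = Rk k (m + n) z := by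
  fin_cases k <;> ext <;> simp [Rk, bary] <;> ring

theorem Rk_zero (k : Fin 3) (z : ℤ × ℤ) : Rk k 0 z = z := by
  fin_cases k <;> ext <;> simp [Rk, bary]

theorem aff_rinv (k : Fin 3) (z : ℤ × ℤ) : (aff (braidHex.r k))⁻¹ z = Rk k (-1) z := by
  rw [Equiv.Perm.inv_eq_iff_eq, aff_r, Rk_Rk]
  simp [Rk_zero]

/-- the action of a word -/
def act (W : List (Fin 3 × Bool)) (z : ℤ × ℤ) : ℤ × ℤ := aff (braidHex.line (FreeGroup.mk W)) z

theorem act_nil (z : ℤ × ℤ) : act [] z = z := by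
  unfold act
  have : (FreeGroup.mk [] : FreeGroup (Fin 3)) = 1 := rfl
  rw [this, map_one, map_one]; rfl

theorem act_cons (x : Fin 3 × Bool) (W : List (Fin 3 × Bool)) (z : ℤ × ℤ) :
    act (x :: W) z = Rk x.1 (sg x.2) (act W z) := by
  unfold act Hex.line
  obtain ⟨k, b⟩ := x
  have : (FreeGroup.mk ((k, b) :: W) : FreeGroup (Fin 3)) =
      FreeGroup.mk [(k, b)] * FreeGroup.mk W := by rw [FreeGroup.mul_mk]; rfl
  rw [this, map_mul, map_mul, Equiv.Perm.mul_apply]
  cases b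
  · have h1 : (FreeGroup.mk [(k, false)] : FreeGroup (Fin 3)) = (FreeGroup.of k)⁻¹ := by
      rw [FreeGroup.of, FreeGroup.inv_mk]; rfl
    rw [h1, map_inv, map_inv, FreeGroup.lift_apply_of, aff_rinv]
    simp [sg]
  · have h1 : (FreeGroup.mk [(k, true)] : FreeGroup (Fin 3)) = FreeGroup.of k := rfl
    rw [h1, FreeGroup.lift_apply_of, aff_r]
    simp [sg]

/-- ping-pong sets -/
def XX (x : Fin 3 × Bool) : Set (ℤ × ℤ) :=
  {z | bary z x.1 ^ 2 < sg x.2 * (bary z x.1 * bary z (x.1 + 1)) ∧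
    bary z x.1 ^ 2 < -(sg x.2 * (bary z x.1 * bary z (x.1 + 2)))}

theorem sum_bary (k : Fin 3) (z : ℤ × ℤ) : bary z k + bary z (k + 1) + bary z (k + 2) = 1 := by
  fin_cases k <;> simp [bary] <;> ring

theorem sg_cases (b : Bool) : sg b = 1 ∨ sg b = -1 := by
  cases b <;> simp [sg]

/-- criterion for membership after a step -/
theorem step_mem_XX (x : Fin 3 × Bool) (z : ℤ × ℤ)
    (h1 : -(3 * bary z x.1 ^ 2) < sg x.2 * (bary z x.1 * bary z (x.1 + 1)))
    (h2 : sg x.2 * (bary z x.1 * bary z (x.1 + 2)) < 3 * bary z x.1 ^ 2) :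
    Rk x.1 (sg x.2) z ∈ XX x := by
  obtain ⟨e0, e1, e2⟩ := bary_Rk x.1 (sg x.2) z
  simp only [XX, Set.mem_ofPred_eq, e0, e1, e2]
  rcases sg_cases x.2 with h | h <;> rw [h] at h1 h2 ⊢ <;> constructor <;> nlinarith

theorem abs_aux {d b c : ℤ} (hd : d = 1 ∨ d = -1) (h : b ^ 2 < d * (b * c)) :
    b ≠ 0 ∧ |b| < |c| := by
  have hb : b ≠ 0 := by
    rintro rfl; simp at h
  refine ⟨hb, ?_⟩
  have h3 : d * (b * c) ≤ |b| * |c| := by
    rw [← abs_mul]
    rcases hd with rfl | rfl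
    · simpa using le_abs_self (b * c)
    · have := neg_abs_le (b * c); linarith
  have h4 : |b| * |b| < |b| * |c| := by
    have : |b| * |b| = b ^ 2 := by rw [← sq, sq_abs]
    linarith
  exact lt_of_mul_lt_mul_left h4 (abs_nonneg b)

theorem main_aux {a b c e : ℤ} (he : e = 1 ∨ e = -1) (ha : a ≠ 0) (hb : |b| ≤ 2 * |a|)
    (hc : |c| ≤ 2 * |a|) : -(3 * a ^ 2) < e * (a * b) ∧ e * (a * c) < 3 * a ^ 2 := by
  have hpos : 0 < |a| := abs_pos.mpr ha
  have h1 : |a * b| ≤ 2 * a ^ 2 := by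
    rw [abs_mul]
    have : a ^ 2 = |a| * |a| := by rw [← sq, sq_abs]
    rw [this]; nlinarith
  have h2 : |a * c| ≤ 2 * a ^ 2 := by
    rw [abs_mul]
    have : a ^ 2 = |a| * |a| := by rw [← sq, sq_abs]
    rw [this]; nlinarith
  have h3 : 0 < a ^ 2 := by positivity
  rw [abs_le] at h1 h2
  rcases he with rfl | rfl <;> constructor <;> linarith [h1.1, h1.2, h2.1, h2.2]

/-- the ping-pong step -/
theorem step_XX (x y : Fin 3 × Bool) (hxy : x.1 = y.1 → x.2 = y.2) (z : ℤ × ℤ) (hz : z ∈ XX y) :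
    Rk x.1 (sg x.2) z ∈ XX x := by
  obtain ⟨k, e⟩ := x
  obtain ⟨l, d⟩ := y
  simp only [XX, Set.mem_ofPred_eq] at hz
  obtain ⟨hz1, hz2⟩ := hz
  have hd := sg_cases d
  have hd' : -sg d = 1 ∨ -sg d = -1 := by rcases hd with h | h <;> rw [h] <;> simp
  have hs := sum_bary k z
  have hl : l = k ∨ l = k + 1 ∨ l = k + 2 :=
    (by decide : ∀ l k : Fin 3, l = k ∨ l = k + 1 ∨ l = k + 2) l k
  rcases hl with rfl | rfl | rfl
  · have hed : e = d := hxy rfl
    subst hed
    apply step_mem_XX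
    · change -(3 * bary z l ^ 2) < sg e * (bary z l * bary z (l + 1))
      nlinarith [sq_nonneg (bary z l)]
    · change sg e * (bary z l * bary z (l + 2)) < 3 * bary z l ^ 2
      nlinarith [sq_nonneg (bary z l)]
  · have i1 : k + 1 + 1 = k + 2 := (by decide : ∀ k : Fin 3, k + 1 + 1 = k + 2) k
    have i2 : k + 1 + 2 = k := (by decide : ∀ k : Fin 3, k + 1 + 2 = k) k
    rw [i1] at hz1
    rw [i2] at hz2
    obtain ⟨n1, n2⟩ := abs_aux hd hz1
    obtain ⟨-, n3⟩ := abs_aux (b := bary z (k + 1)) (c := bary z k) hd' (by linarith)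
    have ha : bary z k ≠ 0 := by
      intro h; rw [h, abs_zero] at n3; exact absurd n3 (not_lt.mpr (abs_nonneg _))
    have hc : bary z (k + 2) = 1 - bary z k - bary z (k + 1) := by linarith
    have hc' : |bary z (k + 2)| ≤ 2 * |bary z k| := by
      rw [hc]
      have t1 := abs_sub (1 - bary z k) (bary z (k + 1))
      have t2 := abs_sub 1 (bary z k)
      rw [abs_one] at t2
      omega
    obtain ⟨m1, m2⟩ := main_aux (e := sg e) (b := bary z (k + 1)) (c := bary z (k + 2))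
      (sg_cases e) ha (by have := abs_nonneg (bary z k); omega) hc'
    exact step_mem_XX (k, e) z m1 m2
  · have i1 : k + 2 + 1 = k := (by decide : ∀ k : Fin 3, k + 2 + 1 = k) k
    have i2 : k + 2 + 2 = k + 1 := (by decide : ∀ k : Fin 3, k + 2 + 2 = k + 1) k
    rw [i1] at hz1
    rw [i2] at hz2
    obtain ⟨n1, n2⟩ := abs_aux hd hz1
    have ha : bary z k ≠ 0 := by
      intro h; rw [h, abs_zero] at n2; exact absurd n2 (not_lt.mpr (abs_nonneg _))
    have hc : bary z (k + 1) = 1 - bary z k - bary z (k + 2) := by linarith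
    have hc' : |bary z (k + 1)| ≤ 2 * |bary z k| := by
      rw [hc]
      have t1 := abs_sub (1 - bary z k) (bary z (k + 2))
      have t2 := abs_sub 1 (bary z k)
      rw [abs_one] at t2
      omega
    obtain ⟨m1, m2⟩ := main_aux (e := sg e) (b := bary z (k + 1)) (c := bary z (k + 2))
      (sg_cases e) ha hc' (by have := abs_nonneg (bary z k); omega)
    exact step_mem_XX (k, e) z m1 m2

theorem bary_pt (k : Fin 3) : bary (pt k) k = 1 ∧ bary (pt k) (k + 1) = 0 ∧
    bary (pt k) (k + 2) = 0 := by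
  fin_cases k <;> simp [bary, pt]

theorem pt_not_mem (l : Fin 3) (x : Fin 3 × Bool) : pt l ∉ XX x := by
  obtain ⟨k, e⟩ := x
  have : ∀ (l k : Fin 3), bary (pt l) k * bary (pt l) (k + 1) = 0 := by
    intro l k
    fin_cases l <;> fin_cases k <;> simp [bary, pt]
  intro h
  have h1 : bary (pt l) k ^ 2 < sg e * (bary (pt l) k * bary (pt l) (k + 1)) := h.1
  rw [this, mul_zero] at h1
  exact absurd h1 (not_lt.mpr (sq_nonneg _))

theorem Rk_pt (k j : Fin 3) (m : ℤ) (hjk : j ≠ k) : Rk j m (pt k) = pt k := by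
  fin_cases j <;> fin_cases k <;> first | exact absurd rfl hjk | (ext <;> simp [Rk, pt, bary])

theorem St_fix (k : Fin 3) (g : FreeGroup (Fin 3)) (hg : g ∈ St k) :
    aff (braidHex.line g) (pt k) = pt k := by
  unfold St at hg
  induction hg using Subgroup.closure_induction with
  | mem x hx =>
    obtain ⟨j, hj, rfl⟩ := hx
    rw [Hex.line, FreeGroup.lift_apply_of, aff_r, Rk_pt k j 1 hj]
  | one => rw [map_one, map_one]; rfl
  | mul x y _ _ hx hy => rw [map_mul, map_mul, Equiv.Perm.mul_apply, hy, hx]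
  | inv x _ hx => rw [map_inv, map_inv, Equiv.Perm.inv_eq_iff_eq, hx]

theorem mk_cons_mem (k : Fin 3) (x : Fin 3 × Bool) (W : List (Fin 3 × Bool)) (hx : x.1 ≠ k)
    (hW : FreeGroup.mk W ∈ St k) : FreeGroup.mk (x :: W) ∈ St k := by
  obtain ⟨j, b⟩ := x
  have : (FreeGroup.mk ((j, b) :: W) : FreeGroup (Fin 3)) =
      FreeGroup.mk [(j, b)] * FreeGroup.mk W := by rw [FreeGroup.mul_mk]; rfl
  rw [this]
  refine (St k).mul_mem ?_ hW
  have hm : FreeGroup.of j ∈ St k := Subgroup.subset_closure ⟨j, hx, rfl⟩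
  cases b
  · have h1 : (FreeGroup.mk [(j, false)] : FreeGroup (Fin 3)) = (FreeGroup.of j)⁻¹ := by
      rw [FreeGroup.of, FreeGroup.inv_mk]; rfl
    rw [h1]; exact (St k).inv_mem hm
  · exact hm

theorem red_tail {x : Fin 3 × Bool} {W : List (Fin 3 × Bool)}
    (h : FreeGroup.IsReduced (x :: W)) : FreeGroup.IsReduced W := by
  cases W with
  | nil => exact FreeGroup.IsReduced.nil
  | cons y W => exact (FreeGroup.isReduced_cons_cons.mp h).2

theorem pp_aux (k : Fin 3) (W : List (Fin 3 × Bool)) (hW : FreeGroup.IsReduced W) :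
    FreeGroup.mk W ∈ St k ∨ ∃ x W', W = x :: W' ∧ act W (pt k) ∈ XX x := by
  induction W with
  | nil => left; exact (St k).one_mem
  | cons x W ih =>
    have hW' : FreeGroup.IsReduced W := red_tail hW
    rcases ih hW' with h | ⟨y, W', rfl, h⟩
    · by_cases hx : x.1 = k
      · right
        refine ⟨x, W, rfl, ?_⟩
        rw [act_cons]
        have hf : act W (pt k) = pt k := St_fix k _ h
        rw [hf]
        subst hx
        obtain ⟨b0, b1, b2⟩ := bary_pt x.1
        apply step_mem_XX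
        · rw [b0, b1]; norm_num
        · rw [b0, b2]; norm_num
      · left
        exact mk_cons_mem k x W hx h
    · right
      refine ⟨x, y :: W', rfl, ?_⟩
      rw [act_cons]
      exact step_XX x y (FreeGroup.isReduced_cons_cons.mp hW).1 _ h

/-- ping-pong: the lines act freely enough -/
theorem pp (g : FreeGroup (Fin 3)) (k l : Fin 3) (h : aff (braidHex.line g) (pt k) = pt l) :
    k = l ∧ g ∈ St k := by
  have hg : FreeGroup.mk g.toWord = g := FreeGroup.mk_toWord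
  rcases pp_aux k g.toWord FreeGroup.isReduced_toWord with h1 | ⟨x, W', -, h1⟩
  · rw [hg] at h1
    refine ⟨?_, h1⟩
    rw [St_fix k g h1] at h
    revert h
    fin_cases k <;> fin_cases l <;> simp [pt]
  · unfold act at h1
    rw [hg, h] at h1
    exact absurd h1 (pt_not_mem l x)

theorem base_not_mem (x : Fin 3 × Bool) : ((1, 1) : ℤ × ℤ) ∉ XX x := by
  obtain ⟨k, e⟩ := x
  intro h
  have h1 : bary (1, 1) k ^ 2 < sg e * (bary (1, 1) k * bary (1, 1) (k + 1)) := h.1
  fin_cases k <;> cases e <;> simp [bary, sg] at h1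

theorem base_step (x : Fin 3 × Bool) : Rk x.1 (sg x.2) (1, 1) ∈ XX x := by
  obtain ⟨k, e⟩ := x
  apply step_mem_XX <;> fin_cases k <;> cases e <;> simp [bary, sg]

theorem free_aux (W : List (Fin 3 × Bool)) (hW : FreeGroup.IsReduced W) :
    W = [] ∨ ∃ x W', W = x :: W' ∧ act W (1, 1) ∈ XX x := by
  induction W with
  | nil => left; rfl
  | cons x W ih =>
    have hW' : FreeGroup.IsReduced W := red_tail hW
    right
    refine ⟨x, W, rfl, ?_⟩
    rw [act_cons]
    rcases ih hW' with rfl | ⟨y, W', rfl, h⟩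
    · rw [act_nil]; exact base_step x
    · exact step_XX x y (FreeGroup.isReduced_cons_cons.mp hW).1 _ h

/-- ping-pong: the lines generate a free group -/
theorem lines_free (g : FreeGroup (Fin 3)) (h : aff (braidHex.line g) = 1) : g = 1 := by
  have hg : FreeGroup.mk g.toWord = g := FreeGroup.mk_toWord
  rcases free_aux g.toWord FreeGroup.isReduced_toWord with h1 | ⟨x, W', -, h1⟩
  · exact FreeGroup.toWord_eq_nil_iff.mp h1
  · unfold act at h1
    rw [hg, h] at h1
    exact absurd h1 (base_not_mem x)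

end Braid60
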