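import Pool.Agent.Braid60.Defs

/-!
The hexagon of `B_4`:
`a = σ₁⁴`, `c = σ₂⁴`, `c' = σ₃ σ₂⁴ σ₃⁻¹`, `b = (σ₁σ₂)⁻⁶`, `b' = σ₃ (σ₁σ₂)⁻⁶ σ₃⁻¹`, `d = (σ₂σ₃)⁻⁶`
(the generators are `s 0, s 1, s 2`).
-/

set_option autoImplicit false

namespace Braid60

section
variable {G : Type} [Group G]

theorem comm6 (x y : G) (h : x * y * x = y * x * y) : Commute x ((x * y) ^ 6)⁻¹ ∧
    Commute y ((x * y) ^ 6)⁻¹ := by
  have e : (x * y) ^ 3 = (x * y * x) * (x * y * x) := by
    calc (x * y) ^ 3 = x * y * (x * y * x) * y := by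
          simp only [pow_succ, pow_zero, one_mul, mul_assoc]
      _ = (x * y * x) * (y * x * y) := by group
      _ = _ := by rw [← h]
  have h1 : x * (x * y * x) = (x * y * x) * y := by
    calc x * (x * y * x) = x * (y * x * y) := by rw [h]
      _ = (x * y * x) * y := by group
  have h2 : y * (x * y * x) = (x * y * x) * x := by
    calc y * (x * y * x) = (y * x * y) * x := by group
      _ = (x * y * x) * x := by rw [← h]
  have c1 : Commute x ((x * y) ^ 3) := by
    rw [e]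
    change x * ((x * y * x) * (x * y * x)) = ((x * y * x) * (x * y * x)) * x
    rw [← mul_assoc, h1, mul_assoc, h2, ← mul_assoc]
  have c2 : Commute y ((x * y) ^ 3) := by
    rw [e]
    change y * ((x * y * x) * (x * y * x)) = ((x * y * x) * (x * y * x)) * y
    rw [← mul_assoc, h2, mul_assoc, h1, ← mul_assoc]
  have e2 : (x * y) ^ 6 = (x * y) ^ 3 * (x * y) ^ 3 := by rw [← pow_add]
  constructor
  · exact Commute.inv_right (by rw [e2]; exact c1.mul_right c1)
  · exact Commute.inv_right (by rw [e2]; exact c2.mul_right c2)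

end

/-- lines of the hexagon of `B_4`: `c', c, a` -/
def br : Fin 3 → B4 := ![s 2 * s 1 ^ 4 * (s 2)⁻¹, s 1 ^ 4, s 0 ^ 4]

/-- points of the hexagon of `B_4`: `b, b', d` -/
def bp : Fin 3 → B4 :=
  ![((s 0 * s 1) ^ 6)⁻¹, s 2 * ((s 0 * s 1) ^ 6)⁻¹ * (s 2)⁻¹, ((s 1 * s 2) ^ 6)⁻¹]

theorem comm_conj {G : Type} [Group G] (g x y : G) (h : Commute x y) :
    Commute (g * x * g⁻¹) (g * y * g⁻¹) := by
  change g * x * g⁻¹ * (g * y * g⁻¹) = g * y * g⁻¹ * (g * x * g⁻¹)
  have h' : x * y = y * x := h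
  calc g * x * g⁻¹ * (g * y * g⁻¹) = g * (x * y) * g⁻¹ := by group
    _ = g * (y * x) * g⁻¹ := by rw [h']
    _ = _ := by group

/-- the hexagon of `B_4` -/
def braidHex : Hex B4 where
  r := br
  p := bp
  comm := by
    have h01 := comm6 (s 0) (s 1) s01
    have h12 := comm6 (s 1) (s 2) s12
    intro j k hjk
    fin_cases j <;> fin_cases k <;> simp only [br, bp, Fin.mk_zero, Fin.mk_one, Fin.reduceFinMk, Matrix.cons_val_zero, Matrix.cons_val_one, Matrix.cons_val] at hjk ⊢
    · exact absurd rfl hjk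
    · exact comm_conj _ _ _ (h01.2.pow_left 4)
    · exact ((h12.2.mul_left (h12.1.pow_left 4)).mul_left h12.2.inv_left)
    · exact h01.2.pow_left 4
    · exact absurd rfl hjk
    · exact h12.1.pow_left 4
    · exact h01.1.pow_left 4
    · have hs : Commute (s 0 ^ 4) (s 2) := Commute.pow_left s02 4
      exact (hs.mul_right (h01.1.pow_left 4)).mul_right hs.inv_right
    · exact absurd rfl hjk

end Braid60
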