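import Mathlib

/-!
Counter machines (vector addition with zero tests).
-/

set_option autoImplicit false

namespace Braid60

/-- counter machine: in state `s` with `ins s = some (v, w, s1, s2)`, if `v ≤ x` then subtract `v`,
add `w` and go to `s1`, otherwise go to `s2`; `none` is halting -/
structure CM where
  S : Type
  R : Type
  fS : Fintype S
  fR : Fintype R
  ins : S → Option ((R → ℕ) × (R → ℕ) × S × S)

instance (M : CM) : Fintype M.S := M.fS
instance (M : CM) : Fintype M.R := M.fR

open Classical in
/-- one step; the configuration does not change in a halting state -/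
noncomputable def CM.next (M : CM) (c : M.S × (M.R → ℕ)) : M.S × (M.R → ℕ) :=
  match M.ins c.1 with
  | none => c
  | some (v, w, s1, s2) => if v ≤ c.2 then (s1, c.2 - v + w) else (s2, c.2)

/-- the machine halts when started in `c` -/
def CM.Halts (M : CM) (c : M.S × (M.R → ℕ)) : Prop :=
  ∃ t, M.ins ((M.next^[t] c).1) = none

end Braid60
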