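import Mathlib

/-!
MP_983625_al: the occurrence problem for the braid group `B_4` is undecidable.
Basic definitions.

* `cf m α β` : a Collatz-type function `m q + i ↦ α i * q + β i`.
* `Hex G` : three lines `r j` and three points `p k` in a group `G`, the line `r j` commuting
  with the point `p k` for `j ≠ k` (a hexagon of commutations).
* `Hex.ev` : evaluation of words in the six letters.
* `gensL m α β`, `wN N` : the fixed list of words and the word depending on `N`.
* `B4`, `braidHex` : the braid group and its hexagon.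
-/

set_option autoImplicit false

namespace Braid60

/-- the Collatz-type function `m q + i ↦ α i * q + β i` -/
def cf (m : ℕ) (α β : ℕ → ℕ) (x : ℕ) : ℕ := α (x % m) * (x / m) + β (x % m)

/-- hexagon data in a group -/
structure Hex (G : Type) [Group G] where
  r : Fin 3 → G
  p : Fin 3 → G
  comm : ∀ j k : Fin 3, j ≠ k → Commute (r j) (p k)

/-- six letters: lines `inl j`, points `inr k` -/
abbrev Ltr := Fin 3 ⊕ Fin 3

/-- evaluation of a word at a hexagon -/
def Hex.ev {G : Type} [Group G] (X : Hex G) : FreeGroup Ltr →* G :=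
  FreeGroup.lift (Sum.elim X.r X.p)

/-- evaluation of a word in the lines only -/
def Hex.line {G : Type} [Group G] (X : Hex G) : FreeGroup (Fin 3) →* G :=
  FreeGroup.lift X.r

/-- the generators of the subgroup `K` as expressions in four elements of a group -/
def KL {G : Type} [Group G] (m : ℕ) (α β : ℕ → ℕ) (a b c d : G) : List G :=
  (c * (b ^ m)⁻¹) :: (List.range m).flatMap (fun i =>
    [(a ^ (i + 1))⁻¹ * c * (b ^ (α i))⁻¹ * a ^ (i + 1), (b ^ i)⁻¹ * d * b ^ (β i) * a ^ (i + 1)])

/-- letter `a` -/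
def la : FreeGroup Ltr := FreeGroup.of (Sum.inl 2)
/-- letter `c` -/
def lc : FreeGroup Ltr := FreeGroup.of (Sum.inl 1)
/-- letter `c'` -/
def lc' : FreeGroup Ltr := FreeGroup.of (Sum.inl 0)
/-- letter `b` -/
def lb : FreeGroup Ltr := FreeGroup.of (Sum.inr 0)
/-- letter `b'` -/
def lb' : FreeGroup Ltr := FreeGroup.of (Sum.inr 1)
/-- letter `d` -/
def ld : FreeGroup Ltr := FreeGroup.of (Sum.inr 2)

/-- the fixed words: generators of `K` and of its primed copy -/
def gensL (m : ℕ) (α β : ℕ → ℕ) : List (FreeGroup Ltr) :=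
  KL m α β la lb lc ld ++ KL m α β la lb' lc' ld

/-- the word `b'^{-N} b^N` -/
def wN (N : ℕ) : FreeGroup Ltr := (lb' ^ N)⁻¹ * lb ^ N

/-- the subgroup generated by the fixed words at a hexagon -/
def Hex.sub {G : Type} [Group G] (X : Hex G) (m : ℕ) (α β : ℕ → ℕ) : Subgroup G :=
  Subgroup.closure {x | ∃ g ∈ gensL m α β, x = X.ev g}

/-- the relators of `B_4`, exactly as in the frozen statement -/
def rels : Set (FreeGroup (Fin 3)) :=
  {FreeGroup.of (0 : Fin 3) * FreeGroup.of 1 * FreeGroup.of 0 *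
      (FreeGroup.of 1 * FreeGroup.of 0 * FreeGroup.of 1)⁻¹,
    FreeGroup.of (1 : Fin 3) * FreeGroup.of 2 * FreeGroup.of 1 *
      (FreeGroup.of 2 * FreeGroup.of 1 * FreeGroup.of 2)⁻¹,
    FreeGroup.of (0 : Fin 3) * FreeGroup.of 2 *
      (FreeGroup.of 2 * FreeGroup.of 0)⁻¹}

/-- the braid group -/
abbrev B4 := PresentedGroup rels

/-- the Artin generators `s 0, s 1, s 2` -/
def s (i : Fin 3) : B4 := PresentedGroup.of i

theorem s01 : s 0 * s 1 * s 0 = s 1 * s 0 * s 1 := by
  have h : (PresentedGroup.mk rels) (FreeGroup.of (0 : Fin 3) * FreeGroup.of 1 * FreeGroup.of 0 *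
      (FreeGroup.of 1 * FreeGroup.of 0 * FreeGroup.of 1)⁻¹) = 1 :=
    PresentedGroup.one_of_mem (by simp [rels])
  rw [map_mul, map_inv, mul_inv_eq_one] at h
  simp only [map_mul] at h
  exact h

theorem s12 : s 1 * s 2 * s 1 = s 2 * s 1 * s 2 := by
  have h : (PresentedGroup.mk rels) (FreeGroup.of (1 : Fin 3) * FreeGroup.of 2 * FreeGroup.of 1 *
      (FreeGroup.of 2 * FreeGroup.of 1 * FreeGroup.of 2)⁻¹) = 1 :=
    PresentedGroup.one_of_mem (by simp [rels])
  rw [map_mul, map_inv, mul_inv_eq_one] at h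
  simp only [map_mul] at h
  exact h

theorem s02 : s 0 * s 2 = s 2 * s 0 := by
  have h : (PresentedGroup.mk rels) (FreeGroup.of (0 : Fin 3) * FreeGroup.of 2 *
      (FreeGroup.of 2 * FreeGroup.of 0)⁻¹) = 1 :=
    PresentedGroup.one_of_mem (by simp [rels])
  rw [map_mul, map_inv, mul_inv_eq_one] at h
  simp only [map_mul] at h
  exact h

/-- a homomorphism out of `B4` from three elements satisfying the braid relations -/
def homOf {G : Type} [Group G] (g : Fin 3 → G) (h01 : g 0 * g 1 * g 0 = g 1 * g 0 * g 1)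
    (h12 : g 1 * g 2 * g 1 = g 2 * g 1 * g 2) (h02 : g 0 * g 2 = g 2 * g 0) : B4 →* G :=
  PresentedGroup.toGroup (f := g) (rels := rels) (by
    intro x hx
    simp only [rels, Set.mem_insert_iff, Set.mem_singleton_iff] at hx
    rcases hx with rfl | rfl | rfl
    · simp only [map_mul, map_inv, FreeGroup.lift_apply_of, h01, mul_inv_cancel]
    · simp only [map_mul, map_inv, FreeGroup.lift_apply_of, h12, mul_inv_cancel]
    · simp only [map_mul, map_inv, FreeGroup.lift_apply_of, h02, mul_inv_cancel])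

theorem homOf_s {G : Type} [Group G] (g : Fin 3 → G) (h01 : g 0 * g 1 * g 0 = g 1 * g 0 * g 1)
    (h12 : g 1 * g 2 * g 1 = g 2 * g 1 * g 2) (h02 : g 0 * g 2 = g 2 * g 0) (i : Fin 3) :
    homOf g h01 h12 h02 (s i) = g i :=
  PresentedGroup.toGroup.of _

end Braid60
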