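import Pool.Agent.Braid60.CMach
import Pool.Agent.Braid60.Defs

/-!
Module COLLATZ. Simulation of counter machines by Collatz-type functions via Goedel numbers.

Choose distinct primes `P s` (`s : M.S`), `Q r` (`r : M.R`); `code (s, x) = P s * ∏ r, Q r ^ x r`.
Choose `m` divisible by all `P s * ∏ r, Q r ^ v r` (for all instructions `(v,w,s1,s2)` in all
states `s`), by all `P s * Q r`. For a residue `i` mod `m`: if `P s ∣ i` for some `s` (unique for
codes), then
* if `ins s = some (v,w,s1,s2)`: if `P s * Q^v ∣ i` then multiply by `P s1 * Q^w / (P s * Q^v)`,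
  else by `P s2 / P s`;
* if `ins s = none`: if some `Q r ∣ i`, divide by (a chosen) `Q r`; if `i = P s`: the class is
  mapped by `m q + i ↦ q` (so `P s ↦ 0`); else identity;
otherwise identity. Multiplication by `num/den` on the class `i` with `den ∣ i`, `den ∣ m` is
`α i = (m / den) * num ≥ 1`, `β i = (i / den) * num`; `β 0 = 0`.
-/

set_option autoImplicit false

namespace Braid60

namespace Coll

section pq

variable {R : Type} [Fintype R] {Q : R → ℕ}

/-- the Goedel number of the counters -/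
def pq (Q : R → ℕ) (x : R → ℕ) : ℕ := ∏ r, Q r ^ x r

theorem pq_pos (hQ : ∀ r, (Q r).Prime) (x : R → ℕ) : 0 < pq Q x :=
  Finset.prod_pos fun r _ => pow_pos (hQ r).pos _

theorem pq_add (x y : R → ℕ) : pq Q (x + y) = pq Q x * pq Q y := by
  simp [pq, pow_add, Finset.prod_mul_distrib]

theorem pq_zero : pq Q 0 = 1 := by simp [pq]

theorem pq_dvd_iff (hQ : ∀ r, (Q r).Prime) (hinj : Function.Injective Q) (v x : R → ℕ) :
    pq Q v ∣ pq Q x ↔ v ≤ x := by
  classical
  constructor
  · intro h r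
    have h1 : Q r ^ v r ∣ pq Q x :=
      (Finset.dvd_prod_of_mem (fun r => Q r ^ v r) (Finset.mem_univ r)).trans h
    have h2 : pq Q x = Q r ^ x r * ∏ r' ∈ Finset.univ.erase r, Q r' ^ x r' :=
      (Finset.mul_prod_erase _ _ (Finset.mem_univ r)).symm
    rw [h2] at h1
    have h3 : Nat.Coprime (Q r ^ v r) (∏ r' ∈ Finset.univ.erase r, Q r' ^ x r') := by
      refine Nat.Coprime.prod_right fun r' hr' => ?_
      refine Nat.Coprime.pow _ _ ((Nat.coprime_primes (hQ r) (hQ r')).2 fun e => ?_)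
      exact (Finset.ne_of_mem_erase hr') (hinj e).symm
    have h4 := h3.dvd_of_dvd_mul_right h1
    exact (Nat.pow_dvd_pow_iff_le_right (hQ r).one_lt).1 h4
  · intro h
    exact Finset.prod_dvd_prod_of_dvd _ _ fun r _ => pow_dvd_pow _ (h r)

theorem exists_of_prime_dvd (hQ : ∀ r, (Q r).Prime) {p : ℕ} (hp : p.Prime) {x : R → ℕ}
    (h : p ∣ pq Q x) : ∃ r, p = Q r ∧ x r ≠ 0 := by
  obtain ⟨r, _, hr⟩ := (hp.prime.dvd_finsetProd_iff _).1 h
  refine ⟨r, (Nat.prime_dvd_prime_iff_eq hp (hQ r)).1 (hp.dvd_of_dvd_pow hr), ?_⟩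
  intro h0
  rw [h0, pow_zero] at hr
  exact hp.one_lt.ne' (Nat.dvd_one.1 hr)

end pq

section main

variable (M : CM) (P : M.S → ℕ) (Q : M.R → ℕ) (m : ℕ)

/-- the Goedel number of a configuration -/
def code (c : M.S × (M.R → ℕ)) : ℕ := P c.1 * pq Q c.2

/-- the special classes -/
def sp (i : ℕ) : Prop := ∃ s, i = P s ∧ M.ins s = none

open Classical in
/-- the fraction in a given state -/
noncomputable def frs (s : M.S) (i : ℕ) : ℕ × ℕ :=
  match M.ins s with
  | some (v, w, s1, s2) =>
    if P s * pq Q v ∣ i then (P s1 * pq Q w, P s * pq Q v) else (P s2, P s)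
  | none => if h : ∃ r, Q r ∣ i then (1, Q h.choose) else (1, 1)

open Classical in
/-- the fraction on a class -/
noncomputable def fr (i : ℕ) : ℕ × ℕ :=
  if h : ∃ s, P s ∣ i then frs M P Q h.choose i else (1, 1)

open Classical in
/-- the slope -/
noncomputable def al (i : ℕ) : ℕ :=
  if sp M P i then 1 else (m / (fr M P Q i).2) * (fr M P Q i).1

open Classical in
/-- the constant term -/
noncomputable def be (i : ℕ) : ℕ :=
  if sp M P i then 0 else (i / (fr M P Q i).2) * (fr M P Q i).1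

/-- the hypotheses on the primes and the modulus -/
structure Good : Prop where
  hP : ∀ s, (P s).Prime
  hQ : ∀ r, (Q r).Prime
  iP : Function.Injective P
  iQ : Function.Injective Q
  ne : ∀ s r, P s ≠ Q r
  hm : 0 < m
  lt : ∀ s, P s < m
  dP : ∀ s, P s ∣ m
  dQ : ∀ r, Q r ∣ m
  dv : ∀ s v w s1 s2, M.ins s = some (v, w, s1, s2) → P s * pq Q v ∣ m

variable {M P Q m}

theorem Good.fr_spec (h : Good M P Q m) (i : ℕ) :
    (fr M P Q i).2 ∣ m ∧ 0 < (fr M P Q i).1 ∧ 0 < (fr M P Q i).2 ∧ (fr M P Q i).2 ∣ i := by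
  classical
  unfold fr
  split_ifs with h1
  · have h2 := h1.choose_spec
    set s := h1.choose with hs
    unfold frs
    cases hi : M.ins s with
    | some a =>
      obtain ⟨v, w, s1, s2⟩ := a
      simp only
      split_ifs with h3
      · exact ⟨h.dv s v w s1 s2 hi, Nat.mul_pos (h.hP _).pos (pq_pos h.hQ _),
          Nat.mul_pos (h.hP _).pos (pq_pos h.hQ _), h3⟩
      · exact ⟨h.dP s, (h.hP _).pos, (h.hP _).pos, h2⟩
    | none =>
      simp only
      split_ifs with h3
      · exact ⟨h.dQ _, one_pos, (h.hQ _).pos, h3.choose_spec⟩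
      · exact ⟨one_dvd _, one_pos, one_pos, one_dvd _⟩
  · exact ⟨one_dvd _, one_pos, one_pos, one_dvd _⟩

theorem Good.one_le_al (h : Good M P Q m) (i : ℕ) : 1 ≤ al M P Q m i := by
  classical
  unfold al
  split_ifs with h1
  · exact le_rfl
  · obtain ⟨h2, h3, h4, _⟩ := h.fr_spec i
    exact Nat.mul_pos (Nat.div_pos (Nat.le_of_dvd h.hm h2) h4) h3

theorem be_zero (_h : Good M P Q m) : be M P Q 0 = 0 := by
  classical
  unfold be
  split_ifs with h1
  · rfl
  · rw [Nat.zero_div, zero_mul]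

theorem Good.cf_eq (h : Good M P Q m) {X : ℕ} (hs : ¬ sp M P (X % m)) :
    cf m (al M P Q m) (be M P Q) X = (fr M P Q (X % m)).1 * (X / (fr M P Q (X % m)).2) := by
  classical
  obtain ⟨h1, h2, h3, h4⟩ := h.fr_spec (X % m)
  unfold cf al be
  rw [if_neg hs, if_neg hs]
  set num := (fr M P Q (X % m)).1 with hnum
  set den := (fr M P Q (X % m)).2 with hden
  obtain ⟨m', hm'⟩ := h1
  obtain ⟨i', hi'⟩ := h4
  have e1 : m / den = m' := by rw [hm', Nat.mul_div_cancel_left _ h3]
  have e2 : (X % m) / den = i' := by rw [hi', Nat.mul_div_cancel_left _ h3]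
  have e3 : X / den = m' * (X / m) + i' := by
    have e4 : X = den * (m' * (X / m) + i') := by
      conv_lhs => rw [← Nat.div_add_mod X m]
      rw [hi']
      nth_rewrite 1 [hm']
      ring
    conv_lhs => rw [e4]
    exact Nat.mul_div_cancel_left _ h3
  rw [e1, e2, e3]
  ring

theorem mod_dvd_iff {d X m : ℕ} (h : d ∣ m) : d ∣ X % m ↔ d ∣ X :=
  (Nat.dvd_mod_iff h)

theorem Good.P_dvd_code (h : Good M P Q m) {s' : M.S} {c : M.S × (M.R → ℕ)} :
    P s' ∣ code M P Q c ↔ s' = c.1 := by
  constructor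
  · intro h1
    rcases (h.hP s').dvd_mul.1 h1 with h2 | h2
    · exact h.iP ((Nat.prime_dvd_prime_iff_eq (h.hP _) (h.hP _)).1 h2)
    · obtain ⟨r, h3, _⟩ := exists_of_prime_dvd h.hQ (h.hP s') h2
      exact absurd h3 (h.ne _ _)
  · rintro rfl
    exact dvd_mul_right _ _

theorem Good.Q_dvd_code (h : Good M P Q m) {r : M.R} {c : M.S × (M.R → ℕ)}
    (h1 : Q r ∣ code M P Q c) : c.2 r ≠ 0 := by
  rcases (h.hQ r).dvd_mul.1 h1 with h2 | h2
  · exact absurd ((Nat.prime_dvd_prime_iff_eq (h.hQ _) (h.hP _)).1 h2).symm (h.ne _ _)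
  · obtain ⟨r', h3, h4⟩ := exists_of_prime_dvd h.hQ (h.hQ r) h2
    rwa [h.iQ h3]

theorem Good.code_pos (h : Good M P Q m) (c : M.S × (M.R → ℕ)) : 0 < code M P Q c :=
  Nat.mul_pos (h.hP _).pos (pq_pos h.hQ _)

/-- the fraction used at a code -/
theorem Good.fr_code (h : Good M P Q m) (c : M.S × (M.R → ℕ)) :
    fr M P Q (code M P Q c % m) = frs M P Q c.1 (code M P Q c % m) := by
  classical
  have h1 : ∃ s, P s ∣ code M P Q c % m := ⟨c.1, (mod_dvd_iff (h.dP _)).2 (h.P_dvd_code.2 rfl)⟩
  have h2 : h1.choose = c.1 := h.P_dvd_code.1 ((mod_dvd_iff (h.dP _)).1 h1.choose_spec)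
  unfold fr
  rw [dif_pos h1, h2]

theorem Good.sp_code (h : Good M P Q m) {c : M.S × (M.R → ℕ)}
    (hs : sp M P (code M P Q c % m)) : M.ins c.1 = none ∧ code M P Q c % m = P c.1 := by
  obtain ⟨s, h1, h2⟩ := hs
  have h3 : P s ∣ code M P Q c := (mod_dvd_iff (h.dP s)).1 (by rw [h1])
  have h4 := h.P_dvd_code.1 h3
  subst h4
  exact ⟨h2, h1⟩

/-- a step of the machine -/
theorem Good.step (h : Good M P Q m) {c : M.S × (M.R → ℕ)} (hc : M.ins c.1 ≠ none) :
    cf m (al M P Q m) (be M P Q) (code M P Q c) = code M P Q (M.next c) := by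
  classical
  have h1 : ¬ sp M P (code M P Q c % m) := fun hs => hc (h.sp_code hs).1
  rw [h.cf_eq h1, h.fr_code]
  unfold frs CM.next
  cases hi : M.ins c.1 with
  | none => exact absurd hi hc
  | some a =>
    obtain ⟨v, w, s1, s2⟩ := a
    simp only
    have h2 : P c.1 * pq Q v ∣ code M P Q c % m ↔ v ≤ c.2 := by
      rw [mod_dvd_iff (h.dv c.1 v w s1 s2 hi), code, Nat.mul_dvd_mul_iff_left (h.hP _).pos,
        pq_dvd_iff h.hQ h.iQ]
    by_cases hv : v ≤ c.2
    · rw [if_pos (h2.2 hv), if_pos hv]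
      simp only [code]
      have h3 : c.2 = v + (c.2 - v) := (add_tsub_cancel_of_le hv).symm
      have h4 : P c.1 * pq Q c.2 = (P c.1 * pq Q v) * pq Q (c.2 - v) := by
        conv_lhs => rw [h3, pq_add]
        ring
      rw [h4, Nat.mul_div_cancel_left _ (Nat.mul_pos (h.hP _).pos (pq_pos h.hQ _)), pq_add]
      ring
    · rw [if_neg (fun h3 => hv (h2.1 h3)), if_neg hv]
      simp only [code]
      rw [Nat.mul_div_cancel_left _ (h.hP _).pos]

/-- in a halting state the code is divided down to zero -/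
theorem Good.halt (h : Good M P Q m) (s : M.S) (hs : M.ins s = none) (N : ℕ) :
    ∀ x : M.R → ℕ, ∑ r, x r = N →
      ∃ k, (cf m (al M P Q m) (be M P Q))^[k] (code M P Q (s, x)) = 0 := by
  classical
  induction N with
  | zero =>
    intro x hx
    have hx0 : x = 0 := by
      funext r
      exact (Finset.sum_eq_zero_iff.1 hx) r (Finset.mem_univ r)
    subst hx0
    refine ⟨1, ?_⟩
    have h1 : code M P Q (s, 0) = P s := by rw [code, pq_zero, mul_one]
    have h2 : P s % m = P s := Nat.mod_eq_of_lt (h.lt s)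
    have h3 : sp M P (P s) := ⟨s, rfl, hs⟩
    rw [Function.iterate_one, h1]
    unfold cf al be
    rw [h2, if_pos h3, if_pos h3, Nat.div_eq_of_lt (h.lt s)]
  | succ N ih =>
    intro x hx
    have hex : ∃ r, x r ≠ 0 := by
      by_contra hno
      push Not at hno
      rw [Finset.sum_eq_zero (fun r _ => hno r)] at hx
      omega
    obtain ⟨r0, hr0⟩ := hex
    set X := code M P Q (s, x) with hX
    have hQX : Q r0 ∣ X := by
      refine dvd_mul_of_dvd_right ?_ _
      exact (dvd_pow_self (Q r0) hr0).trans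
        (Finset.dvd_prod_of_mem (fun r => Q r ^ x r) (Finset.mem_univ r0))
    have hQi : ∃ r, Q r ∣ X % m := ⟨r0, (mod_dvd_iff (h.dQ r0)).2 hQX⟩
    have hnsp : ¬ sp M P (X % m) := by
      intro hsp
      have h1 := (h.sp_code hsp).2
      obtain ⟨r, hr⟩ := hQi
      rw [h1] at hr
      exact (h.ne _ _) ((Nat.prime_dvd_prime_iff_eq (h.hQ _) (h.hP _)).1 hr).symm
    have hfr : fr M P Q (X % m) = (1, Q hQi.choose) := by
      have h0 : fr M P Q (X % m) = frs M P Q s (X % m) := h.fr_code (s, x)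
      rw [h0]
      unfold frs
      rw [hs]
      simp only
      rw [dif_pos hQi]
    set r := hQi.choose with hr
    have hrX : Q r ∣ X := (mod_dvd_iff (h.dQ r)).1 hQi.choose_spec
    have hxr : x r ≠ 0 := h.Q_dvd_code (c := (s, x)) hrX
    have h5 : cf m (al M P Q m) (be M P Q) X = X / Q r := by
      rw [h.cf_eq hnsp, hfr]
      simp only [one_mul]
    set y : M.R → ℕ := x - Pi.single r 1 with hy
    have hle : Pi.single r 1 ≤ x := by
      intro r'
      by_cases e : r' = r
      · subst e; simp; omega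
      · simp [e]
    have hxy : x = Pi.single r 1 + y := (add_tsub_cancel_of_le hle).symm
    have h6 : X = Q r * code M P Q (s, y) := by
      rw [hX, code, code]
      simp only
      conv_lhs => rw [hxy, pq_add]
      have h7 : pq Q (Pi.single r 1) = Q r := by
        unfold pq
        rw [Finset.prod_eq_single r]
        · simp
        · intro b _ hb; simp [hb]
        · intro hn; exact absurd (Finset.mem_univ r) hn
      rw [h7]; ring
    have h8 : X / Q r = code M P Q (s, y) := by
      rw [h6, Nat.mul_div_cancel_left _ (h.hQ r).pos]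
    have h9 : ∑ r, y r = N := by
      have e1 : ∑ r', x r' = ∑ r', (Pi.single r 1 : M.R → ℕ) r' + ∑ r', y r' := by
        conv_lhs => rw [hxy]
        rw [← Finset.sum_add_distrib]
        rfl
      have e2 : ∑ r', (Pi.single r 1 : M.R → ℕ) r' = 1 := by
        rw [Finset.sum_pi_single']
        simp
      rw [hx, e2] at e1
      omega
    obtain ⟨k, hk⟩ := ih y h9
    refine ⟨k + 1, ?_⟩
    rw [Function.iterate_succ_apply, h5, h8, hk]

theorem Good.main (h : Good M P Q m) (c : M.S × (M.R → ℕ)) :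
    M.Halts c ↔ ∃ k, (cf m (al M P Q m) (be M P Q))^[k] (code M P Q c) = 0 := by
  constructor
  · rintro ⟨t, ht⟩
    induction t generalizing c with
    | zero =>
      obtain ⟨s, x⟩ := c
      exact h.halt s ht _ x rfl
    | succ t ih =>
      by_cases hc : M.ins c.1 = none
      · obtain ⟨s, x⟩ := c
        exact h.halt s hc _ x rfl
      · rw [Function.iterate_succ_apply] at ht
        obtain ⟨k, hk⟩ := ih (M.next c) ht
        refine ⟨k + 1, ?_⟩
        rw [Function.iterate_succ_apply, h.step hc, hk]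
  · rintro ⟨k, hk⟩
    induction k generalizing c with
    | zero => exact absurd hk (h.code_pos c).ne'
    | succ k ih =>
      by_cases hc : M.ins c.1 = none
      · exact ⟨0, hc⟩
      · rw [Function.iterate_succ_apply, h.step hc] at hk
        obtain ⟨t, ht⟩ := ih (M.next c) hk
        exact ⟨t + 1, by rwa [Function.iterate_succ_apply]⟩

end main

theorem exists_good (M : CM) : ∃ (P : M.S → ℕ) (Q : M.R → ℕ) (m : ℕ), Good M P Q m := by
  classical
  let e := Fintype.equivFin (M.S ⊕ M.R)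
  let f : M.S ⊕ M.R → ℕ := fun z => Nat.nth Nat.Prime (e z)
  have hf : Function.Injective f := by
    intro z z' hz
    have h1 := Nat.nth_injective Nat.infinite_setOfPred_prime hz
    exact e.injective (Fin.ext h1)
  have hfp : ∀ z, (f z).Prime := fun z => Nat.prime_nth_prime _
  let P : M.S → ℕ := fun s => f (Sum.inl s)
  let Q : M.R → ℕ := fun r => f (Sum.inr r)
  -- a bound for the exponents
  let V : M.R → ℕ := fun r => 1 + ∑ s, (match M.ins s with
    | some (v, _, _, _) => v r
    | none => 0)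
  have hV : ∀ s v w s1 s2, M.ins s = some (v, w, s1, s2) → v ≤ V := by
    intro s v w s1 s2 hi r
    have h1 : (match M.ins s with
      | some (v, _, _, _) => v r
      | none => 0) = v r := by rw [hi]
    have h2 := Finset.single_le_sum (f := fun s => (match M.ins s with
      | some (v, _, _, _) => v r
      | none => 0)) (fun _ _ => Nat.zero_le _) (Finset.mem_univ s)
    simp only [h1] at h2
    exact h2.trans (Nat.le_add_left _ _)
  refine ⟨P, Q, 2 * ((∏ s, P s) * pq Q V), ?_⟩
  have hPp : ∀ s, (P s).Prime := fun s => hfp _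
  have hQp : ∀ r, (Q r).Prime := fun r => hfp _
  have hprod : 0 < ∏ s, P s := Finset.prod_pos fun s _ => (hPp s).pos
  have hpq : 0 < pq Q V := pq_pos hQp V
  refine ⟨hPp, hQp, ?_, ?_, ?_, by positivity, ?_, ?_, ?_, ?_⟩
  · intro s s' h
    exact Sum.inl_injective (hf h)
  · intro r r' h
    exact Sum.inr_injective (hf h)
  · intro s r h
    exact absurd (hf h) (by simp)
  · intro s
    have h1 : P s ≤ ∏ s, P s :=
      Nat.le_of_dvd hprod (Finset.dvd_prod_of_mem P (Finset.mem_univ s))
    have h2 : (∏ s, P s) * 1 ≤ (∏ s, P s) * pq Q V := Nat.mul_le_mul_left _ hpq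
    omega
  · intro s
    exact dvd_mul_of_dvd_right (dvd_mul_of_dvd_left
      (Finset.dvd_prod_of_mem P (Finset.mem_univ s)) _) _
  · intro r
    refine dvd_mul_of_dvd_right (dvd_mul_of_dvd_right ?_ _) _
    exact (dvd_pow_self (Q r) (by simp [V])).trans
      (Finset.dvd_prod_of_mem (fun r => Q r ^ V r) (Finset.mem_univ r))
  · intro s v w s1 s2 hi
    refine dvd_mul_of_dvd_right (mul_dvd_mul (Finset.dvd_prod_of_mem P (Finset.mem_univ s)) ?_) _
    exact Finset.prod_dvd_prod_of_dvd _ _ fun r _ => pow_dvd_pow _ (hV s v w s1 s2 hi r)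

end Coll

/-- Collatz-type functions simulate counter machines -/
theorem collatz_of_CM (M : CM) : ∃ (m : ℕ) (α β : ℕ → ℕ) (P : M.S → ℕ) (Q : M.R → ℕ),
    0 < m ∧ (∀ i, 1 ≤ α i) ∧ β 0 = 0 ∧
    ∀ c : M.S × (M.R → ℕ),
      M.Halts c ↔ ∃ k, (cf m α β)^[k] (P c.1 * ∏ r, Q r ^ c.2 r) = 0 := by
  obtain ⟨P, Q, m, h⟩ := Coll.exists_good M
  exact ⟨m, Coll.al M P Q m, Coll.be M P Q, P, Q, h.hm, h.one_le_al, Coll.be_zero h,
    fun c => h.main c⟩

end Braid60
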