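import Pool.Agent.Braid60.Defs

/-!
Module COMPLETE. In every hexagon, if `N` reaches `0` under the Collatz-type function, then
`b'^{-N} b^N` lies in the subgroup generated by the fixed words.
-/

set_option autoImplicit false

namespace Braid60

/-- one step: `b^n = l * b^(f n) * k`, with `l` the same word in `a, d` for both copies -/
theorem step_mem {G : Type} [Group G] (m : ℕ) (hm : 0 < m) (α β : ℕ → ℕ) (a b c d : G)
    (hab : Commute a b) (hcb : Commute c b) (hcd : Commute c d) (n : ℕ) :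
    (b ^ n)⁻¹ * (d * a ^ (n % m + 1)) * b ^ (cf m α β n) ∈
      Subgroup.closure {x | x ∈ KL m α β a b c d} := by
  have hi : n % m < m := Nat.mod_lt _ hm
  set i := n % m with hi'
  set q := n / m with hq
  have hn : n = m * q + i := (Nat.div_add_mod n m).symm
  have hf : cf m α β n = α i * q + β i := rfl
  have g1 : c * (b ^ m)⁻¹ ∈ Subgroup.closure {x | x ∈ KL m α β a b c d} := by
    apply Subgroup.subset_closure
    simp [KL]
  have g2 : (a ^ (i + 1))⁻¹ * c * (b ^ (α i))⁻¹ * a ^ (i + 1) ∈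
      Subgroup.closure {x | x ∈ KL m α β a b c d} := by
    apply Subgroup.subset_closure
    change _ ∈ KL m α β a b c d
    rw [KL, List.mem_cons, List.mem_flatMap]
    exact Or.inr ⟨i, List.mem_range.2 hi, by simp⟩
  have g3 : (b ^ i)⁻¹ * d * b ^ (β i) * a ^ (i + 1) ∈
      Subgroup.closure {x | x ∈ KL m α β a b c d} := by
    apply Subgroup.subset_closure
    change _ ∈ KL m α β a b c d
    rw [KL, List.mem_cons, List.mem_flatMap]
    exact Or.inr ⟨i, List.mem_range.2 hi, by simp⟩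
  have e1 : (c * (b ^ m)⁻¹) ^ q = c ^ q * (b ^ (m * q))⁻¹ := by
    rw [Commute.mul_pow ((hcb.pow_right m).inv_right), inv_pow, ← pow_mul]
  have e2 : ((a ^ (i + 1))⁻¹ * c * (b ^ (α i))⁻¹ * a ^ (i + 1)) ^ q =
      (a ^ (i + 1))⁻¹ * (c ^ q * (b ^ (α i * q))⁻¹) * a ^ (i + 1) := by
    have h1 : (a ^ (i + 1))⁻¹ * c * (b ^ (α i))⁻¹ * a ^ (i + 1) =
        (a ^ (i + 1))⁻¹ * (c * (b ^ (α i))⁻¹) * ((a ^ (i + 1))⁻¹)⁻¹ := by
      rw [inv_inv]; group
    rw [h1, conj_pow, Commute.mul_pow ((hcb.pow_right (α i)).inv_right), inv_pow, ← pow_mul,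
      inv_inv]
  have key : (b ^ n)⁻¹ * (d * a ^ (i + 1)) * b ^ (cf m α β n) =
      (c * (b ^ m)⁻¹) ^ q * ((b ^ i)⁻¹ * d * b ^ (β i) * a ^ (i + 1)) *
        (((a ^ (i + 1))⁻¹ * c * (b ^ (α i))⁻¹ * a ^ (i + 1)) ^ q)⁻¹ := by
    rw [e1, e2, hf, hn]
    have c1 : Commute (a ^ (i + 1)) (b ^ (α i * q + β i)) := hab.pow_pow _ _
    have c2 : Commute (c ^ q) ((b ^ (m * q + i))⁻¹ * d * b ^ (α i * q + β i)) :=
      (((hcb.pow_pow q _).inv_right).mul_right (hcd.pow_left q)).mul_right (hcb.pow_pow q _)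
    calc (b ^ (m * q + i))⁻¹ * (d * a ^ (i + 1)) * b ^ (α i * q + β i)
        = (b ^ (m * q + i))⁻¹ * d * (a ^ (i + 1) * b ^ (α i * q + β i)) := by group
      _ = (b ^ (m * q + i))⁻¹ * d * b ^ (α i * q + β i) * a ^ (i + 1) := by
          rw [c1.eq]; group
      _ = c ^ q * ((b ^ (m * q + i))⁻¹ * d * b ^ (α i * q + β i)) * (c ^ q)⁻¹ * a ^ (i + 1) := by
          rw [c2.eq]; group
      _ = c ^ q * (b ^ (m * q))⁻¹ * ((b ^ i)⁻¹ * d * b ^ (β i) * a ^ (i + 1)) *
        ((a ^ (i + 1))⁻¹ * (c ^ q * (b ^ (α i * q))⁻¹) * a ^ (i + 1))⁻¹ := by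
          rw [add_comm (m * q) i, pow_add, add_comm (α i * q) (β i), pow_add]
          simp only [mul_inv_rev, inv_inv, mul_assoc, inv_mul_cancel_left, mul_inv_cancel_left]
  rw [key]
  exact mul_mem (mul_mem (pow_mem g1 q) g3) (inv_mem (pow_mem g2 q))

lemma KL_map {G H : Type} [Group G] [Group H] (φ : G →* H) (m : ℕ) (α β : ℕ → ℕ) (a b c d : G) :
    (KL m α β a b c d).map φ = KL m α β (φ a) (φ b) (φ c) (φ d) := by
  simp [KL, List.map_flatMap]

theorem complete {G : Type} [Group G] (X : Hex G) (m : ℕ) (hm : 0 < m) (α β : ℕ → ℕ) (N : ℕ)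
    (h : ∃ k, (cf m α β)^[k] N = 0) : X.ev (wN N) ∈ X.sub m α β := by
  have ea : X.ev la = X.r 2 := FreeGroup.lift_apply_of
  have ec : X.ev lc = X.r 1 := FreeGroup.lift_apply_of
  have ec' : X.ev lc' = X.r 0 := FreeGroup.lift_apply_of
  have eb : X.ev lb = X.p 0 := FreeGroup.lift_apply_of
  have eb' : X.ev lb' = X.p 1 := FreeGroup.lift_apply_of
  have ed : X.ev ld = X.p 2 := FreeGroup.lift_apply_of
  have hK : Subgroup.closure {x | x ∈ KL m α β (X.r 2) (X.p 0) (X.r 1) (X.p 2)} ≤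
      X.sub m α β := by
    apply Subgroup.closure_mono
    intro x hx
    change x ∈ KL m α β (X.r 2) (X.p 0) (X.r 1) (X.p 2) at hx
    rw [← ea, ← eb, ← ec, ← ed, ← KL_map, List.mem_map] at hx
    obtain ⟨g, hg, rfl⟩ := hx
    exact ⟨g, List.mem_append_left _ hg, rfl⟩
  have hK' : Subgroup.closure {x | x ∈ KL m α β (X.r 2) (X.p 1) (X.r 0) (X.p 2)} ≤
      X.sub m α β := by
    apply Subgroup.closure_mono
    intro x hx
    change x ∈ KL m α β (X.r 2) (X.p 1) (X.r 0) (X.p 2) at hx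
    rw [← ea, ← eb', ← ec', ← ed, ← KL_map, List.mem_map] at hx
    obtain ⟨g, hg, rfl⟩ := hx
    exact ⟨g, List.mem_append_right _ hg, rfl⟩
  have key : ∀ (k N : ℕ), (cf m α β)^[k] N = 0 → ∃ l : G, l⁻¹ * X.p 0 ^ N ∈ X.sub m α β ∧
      l⁻¹ * X.p 1 ^ N ∈ X.sub m α β := by
    intro k
    induction k with
    | zero =>
      intro N hN
      rw [Function.iterate_zero, id] at hN
      subst hN
      exact ⟨1, by simp [one_mem], by simp [one_mem]⟩
    | succ k ih =>
      intro N hN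
      rw [Function.iterate_succ_apply] at hN
      obtain ⟨l, h1, h2⟩ := ih _ hN
      have s1 := hK (step_mem m hm α β (X.r 2) (X.p 0) (X.r 1) (X.p 2)
        (X.comm 2 0 (by decide)) (X.comm 1 0 (by decide)) (X.comm 1 2 (by decide)) N)
      have s2 := hK' (step_mem m hm α β (X.r 2) (X.p 1) (X.r 0) (X.p 2)
        (X.comm 2 1 (by decide)) (X.comm 0 1 (by decide)) (X.comm 0 2 (by decide)) N)
      refine ⟨X.p 2 * X.r 2 ^ (N % m + 1) * l, ?_, ?_⟩
      · have := mul_mem h1 (inv_mem s1)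
        convert this using 1
        group
      · have := mul_mem h2 (inv_mem s2)
        convert this using 1
        group
  obtain ⟨k, hk⟩ := h
  obtain ⟨l, h1, h2⟩ := key k N hk
  have h3 := mul_mem (inv_mem h2) h1
  have e : X.ev (wN N) = (l⁻¹ * X.p 1 ^ N)⁻¹ * (l⁻¹ * X.p 0 ^ N) := by
    rw [wN, map_mul, map_inv, map_pow, map_pow, eb, eb']
    group
  rw [e]
  exact h3

end Braid60
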