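import Mathlib

/-!
Module MAG. If `pos` is injective, `x ↦ ζ x * of (pos x) * (ζ x)⁻¹` induces an injective
homomorphism of free groups.

Proof: retract onto the image of `pos`, so that `pos = id` on `S`; the endomorphism `ψ` of
`F = FreeGroup S` extends to the group ring, and `ψ z - z ∈ D^{k+1}` for `z ∈ D^k`, `D` the
augmentation ideal (as a `Submodule ℤ (MonoidAlgebra ℤ F)`). So `ψ ν = 1` implies
`ν - 1 ∈ D^k` for all `k`. For `ν = s₁^{m₁} ⋯ sₙ^{mₙ}` reduced (`s_j ≠ s_{j+1}`, `m_j ≠ 0`,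
`n ≥ 1`) the operators `(N_s x)_j = x_{j+1}` if `s_j = s`, else `0`, on functions `ℕ → ℤ` satisfy
`N_s² = 0`; `s ↦ 1 + N_s` is a representation in which `D^{n+1}` kills `e_n` and
`(ν e_n)_0 = m₁ ⋯ mₙ ≠ 0`. (A letter-by-letter variant with a reduced word and
`N_s` depending on the sign of the letters is possible too.)

Implementation (helper90): no group ring. `rho : F → (End ℤ (List S → ℤ))ˣ`, `s ↦ 1 + N s`, with the
filtration `J k`; by successive approximation (`approx`) there is `σ` with `σ (ψ g) - rho g ∈ J k` for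
all `g`, so `ψ ν = 1` gives `rho ν - 1 ∈ J k` for every `k`.
-/

set_option autoImplicit false

namespace Braid60

namespace Mg

/-! ### Filtered rings -/

section filt

variable {S R : Type} [Ring R] {J : ℕ → AddSubgroup R}

theorem all_zero (hmul : ∀ {k l : ℕ} {a b : R}, a ∈ J k → b ∈ J l → a * b ∈ J (k + l))
    (hone : (1 : R) ∈ J 0) (σ : FreeGroup S →* Rˣ)
    (h : ∀ s, ((σ (FreeGroup.of s) : Rˣ) : R) ∈ J 0 ∧ (((σ (FreeGroup.of s))⁻¹ : Rˣ) : R) ∈ J 0)
    (g : FreeGroup S) : ((σ g : Rˣ) : R) ∈ J 0 := by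
  induction g using FreeGroup.induction_on with
  | C1 => rw [map_one]; exact hone
  | of s => exact (h s).1
  | inv_of s _ => rw [map_inv]; exact (h s).2
  | mul x y hx hy =>
    rw [map_mul, Units.val_mul]
    exact hmul hx hy

theorem agree (hmul : ∀ {k l : ℕ} {a b : R}, a ∈ J k → b ∈ J l → a * b ∈ J (k + l))
    (σ τ : FreeGroup S →* Rˣ) (hσ : ∀ g, ((σ g : Rˣ) : R) ∈ J 0)
    (hτ : ∀ g, ((τ g : Rˣ) : R) ∈ J 0) (k : ℕ)
    (h : ∀ s, ((σ (FreeGroup.of s) : Rˣ) : R) - ((τ (FreeGroup.of s) : Rˣ) : R) ∈ J k)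
    (g : FreeGroup S) : ((σ g : Rˣ) : R) - ((τ g : Rˣ) : R) ∈ J k := by
  induction g using FreeGroup.induction_on with
  | C1 => rw [map_one, map_one, sub_self]; exact zero_mem _
  | of s => exact h s
  | inv_of s hs =>
    have h1 : ((σ (FreeGroup.of s)⁻¹ : Rˣ) : R) - ((τ (FreeGroup.of s)⁻¹ : Rˣ) : R) =
        -(((σ (FreeGroup.of s)⁻¹ : Rˣ) : R) *
          (((σ (FreeGroup.of s) : Rˣ) : R) - ((τ (FreeGroup.of s) : Rˣ) : R)) *
          ((τ (FreeGroup.of s)⁻¹ : Rˣ) : R)) := by
      rw [map_inv, map_inv, mul_sub, sub_mul, Units.inv_mul, one_mul, mul_assoc,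
        Units.mul_inv, mul_one]
      abel
    rw [h1]
    have h2 := hmul (hmul (hσ (FreeGroup.of s)⁻¹) (h s)) (hτ (FreeGroup.of s)⁻¹)
    rw [zero_add, add_zero] at h2
    exact neg_mem h2
  | mul x y hx hy =>
    have h1 : ((σ (x * y) : Rˣ) : R) - ((τ (x * y) : Rˣ) : R) =
        (((σ x : Rˣ) : R) - ((τ x : Rˣ) : R)) * ((σ y : Rˣ) : R) +
          ((τ x : Rˣ) : R) * (((σ y : Rˣ) : R) - ((τ y : Rˣ) : R)) := by
      rw [map_mul, map_mul, Units.val_mul, Units.val_mul]
      noncomm_ring
    rw [h1]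
    have h2 := hmul hx (hσ y)
    have h3 := hmul (hτ x) hy
    rw [add_zero] at h2
    rw [zero_add] at h3
    exact add_mem h2 h3

theorem approx (hmul : ∀ {k l : ℕ} {a b : R}, a ∈ J k → b ∈ J l → a * b ∈ J (k + l))
    (hone : (1 : R) ∈ J 0) (ρ : FreeGroup S →* Rˣ) (hρ0 : ∀ g, ((ρ g : Rˣ) : R) ∈ J 0)
    (hρ : ∀ s, ((ρ (FreeGroup.of s) : Rˣ) : R) - 1 ∈ J 1) (ζ : S → FreeGroup S) (k : ℕ) :
    ∃ σ : FreeGroup S →* Rˣ, (∀ g, ((σ g : Rˣ) : R) ∈ J 0) ∧
      ∀ s, ((σ (ζ s * FreeGroup.of s * (ζ s)⁻¹) : Rˣ) : R) - ((ρ (FreeGroup.of s) : Rˣ) : R)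
        ∈ J k := by
  induction k with
  | zero => exact ⟨ρ, hρ0, fun s => sub_mem (hρ0 _) (hρ0 _)⟩
  | succ k ih =>
    obtain ⟨σ, hσ0, hσ⟩ := ih
    let τ : FreeGroup S →* Rˣ :=
      FreeGroup.lift (fun s => (σ (ζ s))⁻¹ * ρ (FreeGroup.of s) * σ (ζ s))
    have hτs : ∀ s, τ (FreeGroup.of s) = (σ (ζ s))⁻¹ * ρ (FreeGroup.of s) * σ (ζ s) :=
      fun s => FreeGroup.lift_apply_of
    have hτ0 : ∀ g, ((τ g : Rˣ) : R) ∈ J 0 := by
      refine all_zero hmul hone τ fun s => ⟨?_, ?_⟩
      · rw [hτs, ← map_inv, Units.val_mul, Units.val_mul]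
        exact hmul (hmul (hσ0 _) (hρ0 _)) (hσ0 _)
      · rw [hτs, mul_inv_rev, mul_inv_rev, inv_inv, ← map_inv, ← map_inv, Units.val_mul,
          Units.val_mul]
        exact hmul (hσ0 _) (hmul (hρ0 _) (hσ0 _))
    have hag : ∀ g, ((τ g : Rˣ) : R) - ((σ g : Rˣ) : R) ∈ J k := by
      refine agree hmul τ σ hτ0 hσ0 k fun s => ?_
      have h1 : ((τ (FreeGroup.of s) : Rˣ) : R) - ((σ (FreeGroup.of s) : Rˣ) : R) =
          -((((σ (ζ s)⁻¹ : Rˣ) : R)) * (((σ (ζ s * FreeGroup.of s * (ζ s)⁻¹) : Rˣ) : R) -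
            ((ρ (FreeGroup.of s) : Rˣ) : R)) * ((σ (ζ s) : Rˣ) : R)) := by
        rw [hτs, mul_sub, sub_mul, ← Units.val_mul, ← Units.val_mul, ← Units.val_mul,
          ← Units.val_mul, ← map_mul, ← map_mul]
        have e1 : (ζ s)⁻¹ * (ζ s * FreeGroup.of s * (ζ s)⁻¹) * ζ s = FreeGroup.of s := by group
        rw [e1, map_inv]
        abel
      rw [h1]
      have h2 := hmul (hmul (hσ0 (ζ s)⁻¹) (hσ s)) (hσ0 (ζ s))
      rw [zero_add, add_zero] at h2
      exact neg_mem h2
    refine ⟨τ, hτ0, fun s => ?_⟩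
    set c : Rˣ := τ (ζ s) * (σ (ζ s))⁻¹ with hc
    set r : Rˣ := ρ (FreeGroup.of s) with hr
    have e1 : τ (ζ s * FreeGroup.of s * (ζ s)⁻¹) = c * r * c⁻¹ := by
      rw [map_mul, map_mul, map_inv, hτs, hc, mul_inv_rev, inv_inv, ← hr]
      group
    have hc1 : ((c : Rˣ) : R) - 1 ∈ J k := by
      have e2 : ((c : Rˣ) : R) - 1 = (((τ (ζ s) : Rˣ) : R) - ((σ (ζ s) : Rˣ) : R)) *
          ((σ (ζ s)⁻¹ : Rˣ) : R) := by
        rw [sub_mul, map_inv, Units.mul_inv, hc, Units.val_mul]
      rw [e2]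
      have h2 := hmul (hag (ζ s)) (hσ0 (ζ s)⁻¹)
      rwa [add_zero] at h2
    have hci : ((c⁻¹ : Rˣ) : R) ∈ J 0 := by
      rw [hc, mul_inv_rev, inv_inv, ← map_inv, Units.val_mul]
      exact hmul (hσ0 _) (hτ0 _)
    have e3 : ((c * r * c⁻¹ : Rˣ) : R) - ((r : Rˣ) : R) =
        ((((c : Rˣ) : R) - 1) * (((r : Rˣ) : R) - 1) -
          (((r : Rˣ) : R) - 1) * (((c : Rˣ) : R) - 1)) * ((c⁻¹ : Rˣ) : R) := by
      have e4 : ((((c : Rˣ) : R) - 1) * (((r : Rˣ) : R) - 1) -
          (((r : Rˣ) : R) - 1) * (((c : Rˣ) : R) - 1)) = (c : R) * r - r * c := by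
        noncomm_ring
      rw [e4, sub_mul, mul_assoc ((r : Rˣ) : R), Units.mul_inv, mul_one, Units.val_mul,
        Units.val_mul]
    rw [e1, e3]
    have h5 := hmul hc1 (hρ s)
    have h6 := hmul (hρ s) hc1
    rw [add_comm 1 k] at h6
    have h7 := hmul (sub_mem h5 h6) hci
    rwa [add_zero] at h7

end filt

/-! ### The representation on functions of lists -/

section rep

variable {S : Type}

open Classical in
/-- the value of the elementary operator -/
noncomputable def nv (s : S) (x : List S → ℤ) : List S → ℤ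
  | [] => 0
  | t :: L => if t = s ∧ L.head? ≠ some s then x L else 0

/-- the elementary operator -/
noncomputable def N (s : S) : Module.End ℤ (List S → ℤ) where
  toFun := nv s
  map_add' x y := by
    funext L
    cases L with
    | nil => simp [nv]
    | cons t L =>
      simp only [nv, Pi.add_apply]
      split_ifs <;> simp
  map_smul' a x := by
    funext L
    cases L with
    | nil => simp [nv]
    | cons t L =>
      simp only [nv, Pi.smul_apply]
      split_ifs <;> simp

theorem N_sq (s : S) : N s * N s = 0 := by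
  apply LinearMap.ext
  intro x
  funext L
  show nv s (nv s x) L = 0
  cases L with
  | nil => rfl
  | cons t L =>
    simp only [nv]
    split_ifs with h
    · cases L with
      | nil => rfl
      | cons u L =>
        simp only [nv]
        rw [if_neg]
        rintro ⟨h1, _⟩
        apply h.2
        rw [h1]
        rfl
    · rfl

/-- the generator acts by `1 + N s` -/
noncomputable def U (s : S) : (Module.End ℤ (List S → ℤ))ˣ where
  val := 1 + N s
  inv := 1 - N s
  val_inv := by
    have h := N_sq s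
    have e : (1 + N s) * (1 - N s) = 1 - N s * N s := by noncomm_ring
    rw [e, h, sub_zero]
  inv_val := by
    have h := N_sq s
    have e : (1 - N s) * (1 + N s) = 1 - N s * N s := by noncomm_ring
    rw [e, h, sub_zero]

theorem U_zpow (s : S) (m : ℤ) :
    ((U s ^ m : (Module.End ℤ (List S → ℤ))ˣ) : Module.End ℤ (List S → ℤ)) = 1 + m • N s := by
  have h := N_sq s
  induction m using Int.induction_on with
  | zero => simp
  | succ i ih =>
    rw [zpow_add_one, Units.val_mul, ih]
    show (1 + (i : ℤ) • N s) * (1 + N s) = _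
    have e : (1 + (i : ℤ) • N s) * (1 + N s) = 1 + ((i : ℤ) + 1) • N s + (i : ℤ) • (N s * N s) := by
      rw [add_mul, one_mul, mul_add, mul_one, smul_mul_assoc, add_smul, one_smul]
      abel
    rw [e, h, smul_zero, add_zero]
  | pred i ih =>
    rw [zpow_sub_one, Units.val_mul, ih]
    show (1 + (-(i : ℤ)) • N s) * (1 - N s) = _
    have e : (1 + (-(i : ℤ)) • N s) * (1 - N s) =
        1 + (-(i : ℤ) - 1) • N s - (-(i : ℤ)) • (N s * N s) := by
      rw [add_mul, one_mul, mul_sub, mul_one, smul_mul_assoc, sub_smul, one_smul]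
      abel
    rw [e, h, smul_zero, sub_zero]

/-- the filtration -/
def J (S : Type) (k : ℕ) : AddSubgroup (Module.End ℤ (List S → ℤ)) where
  carrier := {A | ∀ (x : List S → ℤ) (L : List S),
    (∀ L' : List S, L'.length + k ≤ L.length → x L' = 0) → A x L = 0}
  zero_mem' := fun x L _ => rfl
  add_mem' := by
    intro A B hA hB x L h
    show A x L + B x L = 0
    rw [hA x L h, hB x L h, add_zero]
  neg_mem' := by
    intro A hA x L h
    show -(A x L) = 0
    rw [hA x L h, neg_zero]

theorem mem_J {k : ℕ} {A : Module.End ℤ (List S → ℤ)} : A ∈ J S k ↔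
    ∀ (x : List S → ℤ) (L : List S),
      (∀ L' : List S, L'.length + k ≤ L.length → x L' = 0) → A x L = 0 := Iff.rfl

theorem J_mul {k l : ℕ} {A B : Module.End ℤ (List S → ℤ)} (hA : A ∈ J S k) (hB : B ∈ J S l) :
    A * B ∈ J S (k + l) := by
  rw [mem_J] at *
  intro x L h
  show A (B x) L = 0
  refine hA _ _ fun L' hL' => hB _ _ fun L'' hL'' => h L'' (by omega)

theorem one_mem_J : (1 : Module.End ℤ (List S → ℤ)) ∈ J S 0 := by
  rw [mem_J]
  intro x L h
  exact h L (by omega)

theorem N_mem_J (s : S) : N s ∈ J S 1 := by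
  rw [mem_J]
  intro x L h
  show nv s x L = 0
  cases L with
  | nil => rfl
  | cons t L =>
    simp only [nv]
    split_ifs
    · exact h L (by simp)
    · rfl

theorem J_le {A : Module.End ℤ (List S → ℤ)} (hA : A ∈ J S 1) : A ∈ J S 0 := by
  rw [mem_J] at *
  intro x L h
  exact hA x L fun L' hL' => h L' (by omega)

/-- the representation -/
noncomputable def rho : FreeGroup S →* (Module.End ℤ (List S → ℤ))ˣ := FreeGroup.lift U

theorem rho_of (s : S) : rho (FreeGroup.of s) = U s := FreeGroup.lift_apply_of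

theorem rho_mem (g : FreeGroup S) :
    ((rho g : (Module.End ℤ (List S → ℤ))ˣ) : Module.End ℤ (List S → ℤ)) ∈ J S 0 := by
  refine all_zero J_mul one_mem_J rho (fun s => ⟨?_, ?_⟩) g
  · rw [rho_of]
    exact add_mem one_mem_J (J_le (N_mem_J s))
  · rw [rho_of]
    exact sub_mem one_mem_J (J_le (N_mem_J s))

/-- syllables -/
def Syl (g : FreeGroup S) : Prop :=
  ∃ l : List (S × ℤ), (l.map fun p => FreeGroup.of p.1 ^ p.2).prod = g ∧
    l.IsChain (fun p q => p.1 ≠ q.1) ∧ ∀ p ∈ l, p.2 ≠ 0

theorem syl_mul {g : FreeGroup S} (hg : Syl g) (s : S) (m : ℤ) :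
    Syl (FreeGroup.of s ^ m * g) := by
  classical
  by_cases hm : m = 0
  · rw [hm, zpow_zero, one_mul]; exact hg
  obtain ⟨l, h1, h2, h3⟩ := hg
  cases l with
  | nil =>
    refine ⟨[(s, m)], ?_, by simp, by simpa using hm⟩
    rw [← h1]
    simp
  | cons p l =>
    by_cases hs : p.1 = s
    · by_cases hmn : m + p.2 = 0
      · refine ⟨l, ?_, h2.tail, fun q hq => h3 q (List.mem_cons_of_mem _ hq)⟩
        rw [← h1, List.map_cons, List.prod_cons, ← mul_assoc, hs, ← zpow_add, hmn, zpow_zero,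
          one_mul]
      · refine ⟨(s, m + p.2) :: l, ?_, ?_, ?_⟩
        · rw [← h1, List.map_cons, List.prod_cons, List.map_cons, List.prod_cons, ← mul_assoc,
            hs, ← zpow_add]
        · cases l with
          | nil => simp
          | cons q l =>
            rw [List.isChain_cons_cons] at h2 ⊢
            exact ⟨by rw [← hs]; exact h2.1, h2.2⟩
        · intro q hq
          rcases List.mem_cons.1 hq with rfl | hq
          · exact hmn
          · exact h3 q (List.mem_cons_of_mem _ hq)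
    · refine ⟨(s, m) :: p :: l, ?_, ?_, ?_⟩
      · rw [List.map_cons, List.prod_cons, h1]
      · rw [List.isChain_cons_cons]
        exact ⟨fun e => hs e.symm, h2⟩
      · intro q hq
        rcases List.mem_cons.1 hq with rfl | hq
        · exact hm
        · exact h3 q hq

theorem syl (g : FreeGroup S) : Syl g := by
  have h : ∀ g : FreeGroup S, ∀ k : FreeGroup S, Syl k → Syl (g * k) := by
    intro g
    induction g using FreeGroup.induction_on with
    | C1 => intro k hk; rw [one_mul]; exact hk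
    | of s => intro k hk; have := syl_mul hk s 1; rwa [zpow_one] at this
    | inv_of s _ => intro k hk; have := syl_mul hk s (-1); rwa [zpow_neg_one] at this
    | mul x y hx hy => intro k hk; rw [mul_assoc]; exact hx _ (hy _ hk)
  have h1 := h g 1 ⟨[], by simp, by simp, by simp⟩
  rwa [mul_one] at h1

open Classical in
/-- the indicator of the empty list -/
noncomputable def e0 : List S → ℤ := fun L => if L = [] then 1 else 0

theorem rho_eval (l : List (S × ℤ)) (hl : l.IsChain (fun p q => p.1 ≠ q.1)) :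
    (∀ L : List S, l.length < L.length →
      ((rho (l.map fun p => FreeGroup.of p.1 ^ p.2).prod : (Module.End ℤ (List S → ℤ))ˣ) :
        Module.End ℤ (List S → ℤ)) e0 L = 0) ∧
    ((rho (l.map fun p => FreeGroup.of p.1 ^ p.2).prod : (Module.End ℤ (List S → ℤ))ˣ) :
        Module.End ℤ (List S → ℤ)) e0 (l.map Prod.fst) = (l.map Prod.snd).prod := by
  induction l with
  | nil =>
    constructor
    · intro L hL
      rw [List.map_nil, List.prod_nil, map_one]
      show e0 L = 0
      unfold e0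
      rw [if_neg]
      rintro rfl
      simp at hL
    · rw [List.map_nil, List.prod_nil, map_one]
      show e0 ([] : List S) = 1
      simp [e0]
  | cons p l ih =>
    obtain ⟨ih1, ih2⟩ := ih hl.tail
    set y : List S → ℤ := ((rho (l.map fun p => FreeGroup.of p.1 ^ p.2).prod :
      (Module.End ℤ (List S → ℤ))ˣ) : Module.End ℤ (List S → ℤ)) e0 with hy
    have key : ∀ L : List S, ((rho ((p :: l).map fun p => FreeGroup.of p.1 ^ p.2).prod :
        (Module.End ℤ (List S → ℤ))ˣ) : Module.End ℤ (List S → ℤ)) e0 L =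
        y L + p.2 * nv p.1 y L := by
      intro L
      rw [List.map_cons, List.prod_cons, map_mul, map_zpow, rho_of, Units.val_mul, U_zpow]
      rfl
    constructor
    · intro L hL
      rw [key, ih1 L (by simp at hL; omega)]
      cases L with
      | nil => simp at hL
      | cons t L =>
        simp only [nv]
        split_ifs
        · rw [ih1 L (by simp at hL; omega)]; ring
        · ring
    · rw [key, List.map_cons, List.map_cons, List.prod_cons, ih1 _ (by simp)]
      have hh : (l.map Prod.fst).head? ≠ some p.1 := by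
        cases l with
        | nil => simp
        | cons q l =>
          rw [List.isChain_cons_cons] at hl
          simp only [List.map_cons, List.head?_cons, ne_eq, Option.some.injEq]
          exact fun e => hl.1 e.symm
      simp only [nv]
      rw [if_pos ⟨rfl, hh⟩, ih2]
      ring

theorem mag_end (ζ : S → FreeGroup S) (ν : FreeGroup S)
    (h : FreeGroup.lift (fun x => ζ x * FreeGroup.of x * (ζ x)⁻¹) ν = 1) : ν = 1 := by
  obtain ⟨l, h1, h2, h3⟩ := syl ν
  obtain ⟨σ, hσ0, hσ⟩ := approx (J := J S) J_mul one_mem_J rho rho_mem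
    (fun s => by
      rw [rho_of]
      have e : ((U s : (Module.End ℤ (List S → ℤ))ˣ) : Module.End ℤ (List S → ℤ)) - 1 = N s := by
        show (1 + N s) - 1 = N s
        abel
      rw [e]
      exact N_mem_J s) ζ (l.length + 1)
  have hag := agree (J := J S) J_mul
    (σ.comp (FreeGroup.lift (fun x => ζ x * FreeGroup.of x * (ζ x)⁻¹))) rho
    (fun g => hσ0 _) rho_mem (l.length + 1)
    (fun s => by
      rw [MonoidHom.comp_apply, FreeGroup.lift_apply_of]
      exact hσ s) ν
  rw [MonoidHom.comp_apply, h, map_one, mem_J] at hag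
  obtain ⟨r1, r2⟩ := rho_eval l h2
  rw [h1] at r1 r2
  have h4 := hag e0 (l.map Prod.fst) (by
    intro L' hL'
    rw [List.length_map] at hL'
    omega)
  have h5 : e0 (l.map Prod.fst) - (l.map Prod.snd).prod = 0 := by
    rw [← r2]
    exact h4
  cases l with
  | nil =>
    rw [← h1]
    simp
  | cons p l =>
    exfalso
    have h6 : ((p :: l).map Prod.snd).prod ≠ 0 := by
      rw [Ne, List.prod_eq_zero_iff]
      intro h0
      obtain ⟨q, hq, hq0⟩ := List.mem_map.1 h0
      exact h3 q hq hq0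
    have h7 : e0 ((p :: l).map Prod.fst) = 0 := by
      simp [e0]
    rw [h7, zero_sub, neg_eq_zero] at h5
    exact h6 h5

end rep

end Mg

theorem mag {S Ω : Type} (pos : S → Ω) (hpos : Function.Injective pos) (ζ : S → FreeGroup Ω)
    (ν : FreeGroup S)
    (h : FreeGroup.lift (fun x => ζ x * FreeGroup.of (pos x) * (ζ x)⁻¹) ν = 1) : ν = 1 := by
  classical
  let r : FreeGroup Ω →* FreeGroup S :=
    FreeGroup.lift (fun w => if h : ∃ s, pos s = w then FreeGroup.of h.choose else 1)
  have hr : ∀ s, r (FreeGroup.of (pos s)) = FreeGroup.of s := by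
    intro s
    have h1 : ∃ s', pos s' = pos s := ⟨s, rfl⟩
    show FreeGroup.lift _ (FreeGroup.of (pos s)) = _
    rw [FreeGroup.lift_apply_of, dif_pos h1]
    rw [hpos h1.choose_spec]
  refine Mg.mag_end (fun s => r (ζ s)) ν ?_
  have h2 : r.comp (FreeGroup.lift (fun x => ζ x * FreeGroup.of (pos x) * (ζ x)⁻¹)) =
      FreeGroup.lift (fun x => r (ζ x) * FreeGroup.of x * (r (ζ x))⁻¹) := by
    apply FreeGroup.ext_hom
    intro s
    rw [MonoidHom.comp_apply, FreeGroup.lift_apply_of, FreeGroup.lift_apply_of, map_mul,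
      map_mul, map_inv, hr]
  rw [← h2, MonoidHom.comp_apply, h, map_one]

end Braid60
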