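import Pool.Agent.Braid60.Rep
import Pool.Agent.Braid60.Mag

/-!
Module DELTA. Conjugates of `κ` at different lattice positions generate freely, even modulo the
centre.

`δ : F₂ → FreeGroup (ℤ²) ⋊ ℤ²`, `u ↦ (E_{00}, e₁)`, `v ↦ (1, e₂)`; `δ κ = E_{00} E_{01}⁻¹`.
The image of `ν` has trivial `ℤ²` component and commutes with `δ v = (1, e₂)`, so its
`FreeGroup` component is invariant under the shift by
`e₂`, hence trivial (look at the first letter of the reduced word). Then
`χ : E_{i,j} ↦ K_{i,j} ⋯ K_{i,-1}` for `j < 0`, `1` for `j = 0`,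
`K_{i,j-1}⁻¹ ⋯ K_{i,0}⁻¹` for `j > 0`, has `χ (E_x E_{x+e₂}⁻¹) = K_x`, so that
`χ δ (f κ f⁻¹) = ζ K_{lat f} ζ⁻¹`. Then use `mag`.
-/

set_option autoImplicit false

namespace Braid60

namespace Del

/-- the free group on the lattice -/
abbrev W := FreeGroup (ℤ × ℤ)

/-- translation as an automorphism of `W` -/
def sh (s : ℤ × ℤ) : MulAut W :=
  MonoidHom.toMulEquiv (FreeGroup.map (fun x => x + s)) (FreeGroup.map (fun x => x - s))
    (by ext x; simp) (by ext x; simp)

theorem sh_of (s x : ℤ × ℤ) : sh s (FreeGroup.of x) = FreeGroup.of (x + s) := by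
  change FreeGroup.map (fun x => x + s) (FreeGroup.of x) = _
  rw [FreeGroup.map.of]

theorem aut_ext' {f g : MulAut W} (h : ∀ x, f (FreeGroup.of x) = g (FreeGroup.of x)) :
    f = g := by
  have h' : f.toMonoidHom = g.toMonoidHom := FreeGroup.ext_hom _ _ h
  apply MulEquiv.ext
  intro x
  exact DFunLike.congr_fun h' x

/-- the action of the lattice on `W` -/
def act : Multiplicative (ℤ × ℤ) →* MulAut W where
  toFun s := sh s.toAdd
  map_one' := aut_ext' fun x => by rw [sh_of]; simp
  map_mul' a b := aut_ext' fun x => by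
    rw [MulAut.mul_apply, sh_of, sh_of, sh_of]
    congr 1
    simp only [toAdd_mul]
    abel

theorem act_of (s : Multiplicative (ℤ × ℤ)) (x : ℤ × ℤ) :
    act s (FreeGroup.of x) = FreeGroup.of (x + s.toAdd) := sh_of _ _

/-- an element invariant under a nonzero shift is trivial -/
theorem eq_one_of_shift (w : W) (h : sh (0, 1) w = w) : w = 1 := by
  have h1 : FreeGroup.map (fun x : ℤ × ℤ => x + (0, 1)) w = w := h
  set L := w.toWord with hL
  have hw : w = FreeGroup.mk L := FreeGroup.mk_toWord.symm
  have hred : FreeGroup.IsReduced L := FreeGroup.isReduced_toWord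
  have h2 : FreeGroup.mk (L.map fun x => (x.1 + (0, 1), x.2)) = w := by
    rw [← h1, hw]
    rfl
  have hred' : FreeGroup.IsReduced (L.map fun x => (x.1 + ((0 : ℤ), (1 : ℤ)), x.2)) := by
    unfold FreeGroup.IsReduced at hred ⊢
    rw [List.isChain_map]
    refine hred.imp ?_
    intro a b hab h
    exact hab (add_right_cancel h)
  have h3 : L.map (fun x => (x.1 + ((0 : ℤ), (1 : ℤ)), x.2)) = L := by
    have := congrArg FreeGroup.toWord h2
    rwa [FreeGroup.toWord_mk, hred'.reduce_eq] at this
  rcases L with _ | ⟨a, L⟩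
  · rw [hw]; rfl
  · exfalso
    rw [List.map_cons] at h3
    have h4 := (List.cons.inj h3).1
    have h5 : a.1 + ((0 : ℤ), (1 : ℤ)) = a.1 := congrArg Prod.fst h4
    have h6 := congrArg Prod.snd h5
    simp at h6

/-- the products `K_{i,n-1}⁻¹ ⋯ K_{i,0}⁻¹` -/
def gp (i : ℤ) : ℕ → W
  | 0 => 1
  | n + 1 => (FreeGroup.of (i, (n : ℤ)))⁻¹ * gp i n

/-- the products `K_{i,-n} ⋯ K_{i,-1}` -/
def gn (i : ℤ) : ℕ → W
  | 0 => 1
  | n + 1 => FreeGroup.of (i, -((n : ℤ) + 1)) * gn i n

/-- the values of `χ` -/
def gz (i : ℤ) : ℤ → W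
  | Int.ofNat n => gp i n
  | Int.negSucc n => gn i (n + 1)

theorem gz_succ (i j : ℤ) : gz i j = FreeGroup.of (i, j) * gz i (j + 1) := by
  rcases j with n | n
  · change gp i n = FreeGroup.of (i, (n : ℤ)) * gp i (n + 1)
    rw [gp, mul_inv_cancel_left]
  · rcases n with _ | n
    · change gn i 1 = FreeGroup.of (i, -1) * gp i 0
      rw [gn, gn, gp]
      rfl
    · change gn i (n + 2) = FreeGroup.of (i, Int.negSucc (n + 1)) * gn i (n + 1)
      rw [gn]
      congr 3

/-- the retraction `χ` -/
def chi : W →* W := FreeGroup.lift (fun x => gz x.1 x.2)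

theorem chi_E (x : ℤ × ℤ) :
    chi (FreeGroup.of x * (FreeGroup.of (x + (0, 1)))⁻¹) = FreeGroup.of x := by
  rw [map_mul, map_inv, chi, FreeGroup.lift_apply_of, FreeGroup.lift_apply_of,
    mul_inv_eq_iff_eq_mul]
  have := gz_succ x.1 x.2
  rw [this]
  congr 2
  simp

/-- the semidirect product -/
abbrev SD := W ⋊[act] Multiplicative (ℤ × ℤ)

/-- the homomorphism `δ` -/
def del : F2 →* SD :=
  FreeGroup.lift ![⟨FreeGroup.of (0, 0), Multiplicative.ofAdd (1, 0)⟩,
    ⟨1, Multiplicative.ofAdd (0, 1)⟩]

/-- the inclusion of `W` -/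
def inlW : W →* SD := SemidirectProduct.inl

theorem del_u : del u = ⟨FreeGroup.of (0, 0), Multiplicative.ofAdd (1, 0)⟩ := by
  change FreeGroup.lift ![(⟨FreeGroup.of (0, 0), Multiplicative.ofAdd (1, 0)⟩ : SD),
    ⟨1, Multiplicative.ofAdd (0, 1)⟩] (FreeGroup.of 0) = _
  rw [FreeGroup.lift_apply_of]; rfl

theorem del_v : del v = ⟨1, Multiplicative.ofAdd (0, 1)⟩ := by
  change FreeGroup.lift ![(⟨FreeGroup.of (0, 0), Multiplicative.ofAdd (1, 0)⟩ : SD),
    ⟨1, Multiplicative.ofAdd (0, 1)⟩] (FreeGroup.of 1) = _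
  rw [FreeGroup.lift_apply_of]; rfl

theorem del_right (f : F2) : (del f).right = lat f := by
  have : (SemidirectProduct.rightHom (φ := act)).comp del = lat := by
    apply FreeGroup.ext_hom
    intro i
    fin_cases i
    · change (del u).right = lat u
      rw [del_u, lat_u]
    · change (del v).right = lat v
      rw [del_v, lat_v]
  exact DFunLike.congr_fun this f

theorem del_kap : del kap =
    SemidirectProduct.inl (FreeGroup.of (0, 0) * (FreeGroup.of ((0, 0) + (0, 1)))⁻¹) := by
  rw [kap, map_mul, map_mul, map_mul, map_inv, map_inv, mul_inv_eq_iff_eq_mul,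
    mul_inv_eq_iff_eq_mul, del_u, del_v]
  apply SemidirectProduct.ext
  · simp only [SemidirectProduct.mul_left, SemidirectProduct.mul_right,
      SemidirectProduct.left_inl, SemidirectProduct.right_inl, map_one, act_of]
    simp
  · simp only [SemidirectProduct.mul_right, SemidirectProduct.right_inl, one_mul, mul_comm]

theorem del_conj (f : F2) : del (f * kap * f⁻¹) =
    SemidirectProduct.inl ((del f).left *
      (FreeGroup.of (lat f).toAdd * (FreeGroup.of ((lat f).toAdd + (0, 1)))⁻¹) *
      ((del f).left)⁻¹) := by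
  rw [map_mul, map_mul, map_inv, mul_inv_eq_iff_eq_mul, del_kap]
  apply SemidirectProduct.ext
  · simp only [SemidirectProduct.mul_left,
      SemidirectProduct.left_inl, SemidirectProduct.right_inl, map_one, del_right,
      MulAut.one_apply, inv_mul_cancel_right]
    simp only [map_mul, map_inv, act_of]
    have e1 : ((0 : ℤ), (0 : ℤ)) + (lat f).toAdd = (lat f).toAdd := by
      rw [Prod.mk_zero_zero, zero_add]
    have e2 : ((0 : ℤ), (0 : ℤ)) + (0, 1) + (lat f).toAdd = (lat f).toAdd + (0, 1) := by
      rw [Prod.mk_zero_zero, zero_add, add_comm]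
    rw [e1, e2]
  · simp only [SemidirectProduct.mul_right, SemidirectProduct.right_inl, mul_one, one_mul]

end Del

open Del in
theorem kappa_free {T : Type} (f : T → F2) (hinj : Function.Injective (fun t => lat (f t)))
    (ν : FreeGroup T)
    (h : ∀ z : F2, Commute (FreeGroup.lift (fun t => f t * kap * (f t)⁻¹) ν) z) : ν = 1 := by
  -- the image in the free group `W`
  let g : T → W := fun t => (del (f t)).left *
      (FreeGroup.of (lat (f t)).toAdd * (FreeGroup.of ((lat (f t)).toAdd + (0, 1)))⁻¹) *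
      ((del (f t)).left)⁻¹
  have h1 : del (FreeGroup.lift (fun t => f t * kap * (f t)⁻¹) ν) =
      SemidirectProduct.inl (FreeGroup.lift g ν) := by
    have : del.comp (FreeGroup.lift (fun t => f t * kap * (f t)⁻¹)) =
        (inlW).comp (FreeGroup.lift g) := by
      apply FreeGroup.ext_hom
      intro t
      rw [MonoidHom.comp_apply, MonoidHom.comp_apply, FreeGroup.lift_apply_of,
        FreeGroup.lift_apply_of]
      exact del_conj (f t)
    exact DFunLike.congr_fun this ν
  have h2 : FreeGroup.lift g ν = 1 := by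
    apply eq_one_of_shift
    have hc := (h v).map del
    rw [h1, del_v] at hc
    have := congrArg SemidirectProduct.left hc.eq
    simp only [SemidirectProduct.mul_left, SemidirectProduct.left_inl,
      SemidirectProduct.right_inl, map_one, mul_one, one_mul] at this
    exact this.symm
  apply mag (fun t => (lat (f t)).toAdd) (fun a b hab => hinj (Multiplicative.toAdd.injective hab))
    (fun t => chi (del (f t)).left) ν
  have h3 : chi.comp (FreeGroup.lift g) = FreeGroup.lift (fun t => chi (del (f t)).left *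
      FreeGroup.of (lat (f t)).toAdd * (chi (del (f t)).left)⁻¹) := by
    apply FreeGroup.ext_hom
    intro t
    rw [MonoidHom.comp_apply, FreeGroup.lift_apply_of, FreeGroup.lift_apply_of]
    change chi ((del (f t)).left *
      (FreeGroup.of (lat (f t)).toAdd * (FreeGroup.of ((lat (f t)).toAdd + (0, 1)))⁻¹) *
      ((del (f t)).left)⁻¹) = _
    rw [map_mul, map_mul, map_inv, chi_E]
  rw [← h3, MonoidHom.comp_apply, h2, map_one]

end Braid60
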