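import Pool.Agent.Braid60.Delta

/-!
Module FAITH (assembly). A word in the six letters which is trivial in `B_4` is trivial in every
hexagon.
-/

set_option autoImplicit false

namespace Braid60

theorem faithful (W : FreeGroup Ltr) (h : braidHex.ev W = 1) {G : Type} [Group G] (X : Hex G) :
    X.ev W = 1 := by
  obtain ⟨ν, w, hνw⟩ := decomp W
  have hB := hνw B4 braidHex
  rw [h] at hB
  -- the affine action kills the points
  have haff : aff (FreeGroup.lift braidHex.pt ν) = 1 := by
    have : aff.comp (FreeGroup.lift braidHex.pt) = 1 := by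
      ext1 t
      simp only [MonoidHom.comp_apply, FreeGroup.lift_apply_of, Hex.pt, map_mul, aff_point,
        map_inv, mul_one, mul_inv_cancel, MonoidHom.one_apply]
    have h2 := DFunLike.congr_fun this ν
    simpa using h2
  have hw : w = 1 := by
    apply lines_free
    have h2 := congrArg aff hB
    rw [map_one, map_mul, haff, one_mul] at h2
    exact h2.symm
  subst hw
  rw [map_one, mul_one] at hB
  -- conjugators
  have hrep : ∀ t : TT, ∃ f' : F2,
      rep (braidHex.pt t) = MulAut.conj (f' * kap * f'⁻¹) ∧
      (lat f').toAdd = aff (braidHex.line t.2.out) (pt t.1) := by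
    intro t
    obtain ⟨f', h1, h2⟩ := rep_conj (braidHex.line t.2.out) (fk t.1)
    refine ⟨f', ?_, by rw [h2, lat_fk]⟩
    rw [← h1]
    simp only [Hex.pt, map_mul, map_inv, rep_point]
    ext1 x
    simp [MulAut.mul_apply, MulAut.conj_apply]
  choose f hf1 hf2 using hrep
  have hν : ν = 1 := by
    apply kappa_free f
    · rintro ⟨k, x⟩ ⟨l, y⟩ hxy
      have e : aff (braidHex.line x.out) (pt k) = aff (braidHex.line y.out) (pt l) := by
        rw [← hf2 ⟨k, x⟩, ← hf2 ⟨l, y⟩]
        exact congrArg Multiplicative.toAdd hxy
      have e2 : aff (braidHex.line (y.out⁻¹ * x.out)) (pt k) = pt l := by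
        rw [map_mul, map_inv, map_mul, map_inv, Equiv.Perm.mul_apply, e]
        simp
      obtain ⟨rfl, hmem⟩ := pp _ _ _ e2
      have : y = x := by
        rw [← QuotientGroup.out_eq' x, ← QuotientGroup.out_eq' y]
        exact QuotientGroup.eq.2 hmem
      rw [this]
    · intro z
      have h3 : rep (FreeGroup.lift braidHex.pt ν) =
          MulAut.conj (FreeGroup.lift (fun t => f t * kap * (f t)⁻¹) ν) := by
        have : rep.comp (FreeGroup.lift braidHex.pt) =
            (MulAut.conj).comp (FreeGroup.lift (fun t => f t * kap * (f t)⁻¹)) := by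
          ext1 t
          simp only [MonoidHom.comp_apply, FreeGroup.lift_apply_of, hf1]
        exact DFunLike.congr_fun this ν
      rw [← hB, map_one] at h3
      have h4 := DFunLike.congr_fun h3 z
      simp only [MulAut.one_apply, MulAut.conj_apply] at h4
      have h5 := congrArg (fun y => y * FreeGroup.lift (fun t => f t * kap * (f t)⁻¹) ν) h4
      simp only [inv_mul_cancel_right] at h5
      exact h5.symm
  subst hν
  rw [hνw G X]
  simp

end Braid60
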