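import Pool.Agent.Braid60.Defs

/-!
Module SOUND. If `N` does not reach `0` under the Collatz-type function (with `β 0 = 0`, so that
`0` is a fixed point, and all `α i ≥ 1`), there is a hexagon of permutations in which
`b'^{-N} b^N` is not in the subgroup generated by the fixed words.

Set `Y = ((ℤ × Fin (m+1)) × {0,1})`; `b : (s,n) ↦ (s,n+1)`; `c : (0,n) ↦ (0,n+m)`,
`(i+1,n) ↦ (i+1,n+α i)`; `a : (s,n) ↦ (s+1 mod m+1, n)`; `d` swaps `(i+1, β i + α i q)` and
`(0, i + m q)` (`0 ≤ i < m`, `q ∈ ℤ`), identity elsewhere; all of these do not touch `{0,1}`.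
`π (z,ε) = (z, ε + χ z)` with `χ z = 1` iff the integer coordinate of `z` is in the class of `N`
(`∃ k l, f^[k] n = f^[l] N`, `f : ℤ → ℤ` the extension of `cf`); `b' = π b π⁻¹`, `c' = π c π⁻¹`.
The subgroup fixes the point `((0,0),0)`, and the word moves it to `((0,0),1)`.
-/

set_option autoImplicit false

namespace Braid60

namespace Snd

/-- extension of `cf` to the integers -/
def fz (m : ℕ) (α β : ℕ → ℕ) (x : ℤ) : ℤ :=
  (α (x % m).toNat : ℤ) * (x / m) + (β (x % m).toNat : ℤ)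

theorem fz_nat (m : ℕ) (α β : ℕ → ℕ) (x : ℕ) : fz m α β (x : ℤ) = (cf m α β x : ℤ) := by
  have h1 : ((x : ℤ) % (m : ℤ)).toNat = x % m := by
    rw [← Int.natCast_mod, Int.toNat_natCast]
  simp only [fz, cf, h1, ← Int.natCast_div]
  push_cast
  ring

theorem fz_iter_nat (m : ℕ) (α β : ℕ → ℕ) (k : ℕ) (x : ℕ) :
    (fz m α β)^[k] (x : ℤ) = ((cf m α β)^[k] x : ℕ) := by
  induction k generalizing x with
  | zero => rfl
  | succ k ih => rw [Function.iterate_succ_apply, Function.iterate_succ_apply, fz_nat, ih]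

theorem fz_add (m : ℕ) (hm : 0 < m) (α β : ℕ → ℕ) (i : ℕ) (hi : i < m) (q : ℤ) :
    fz m α β (i + m * q) = β i + α i * q := by
  have hm' : (m : ℤ) ≠ 0 := by exact_mod_cast hm.ne'
  have h1 : ((i : ℤ) + m * q) % m = i := by
    rw [Int.add_mul_emod_self_left]
    exact Int.emod_eq_of_lt (by positivity) (by exact_mod_cast hi)
  have h2 : ((i : ℤ) + m * q) / m = q := by
    rw [Int.add_mul_ediv_left _ _ hm', Int.ediv_eq_zero_of_lt (by positivity) (by exact_mod_cast hi),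
      zero_add]
  rw [fz, h1, h2, Int.toNat_natCast]
  ring

/-- the class of `N` -/
def Rel (m : ℕ) (α β : ℕ → ℕ) (N : ℕ) (n : ℤ) : Prop :=
  ∃ k l : ℕ, (fz m α β)^[k] n = (fz m α β)^[l] (N : ℤ)

theorem rel_fz (m : ℕ) (α β : ℕ → ℕ) (N : ℕ) (n : ℤ) :
    Rel m α β N (fz m α β n) ↔ Rel m α β N n := by
  constructor
  · rintro ⟨k, l, h⟩
    exact ⟨k + 1, l, by rw [Function.iterate_succ_apply]; exact h⟩
  · rintro ⟨k, l, h⟩
    refine ⟨k, l + 1, ?_⟩
    rw [← Function.iterate_succ_apply, Function.iterate_succ_apply', Function.iterate_succ_apply', h]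

theorem rel_self (m : ℕ) (α β : ℕ → ℕ) (N : ℕ) : Rel m α β N (N : ℤ) := ⟨0, 0, rfl⟩

theorem not_rel_zero (m : ℕ) (α β : ℕ → ℕ) (hβ : β 0 = 0) (N : ℕ)
    (h : ¬ ∃ k, (cf m α β)^[k] N = 0) : ¬ Rel m α β N 0 := by
  rintro ⟨k, l, hk⟩
  have h0 : fz m α β 0 = 0 := by
    simp [fz, hβ]
  have h1 : (fz m α β)^[k] 0 = 0 := Function.iterate_fixed h0 k
  rw [h1, fz_iter_nat] at hk
  exact h ⟨l, by exact_mod_cast hk.symm⟩

/-- the base set -/
abbrev Z (m : ℕ) : Type := Fin (m + 1) × ℤ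

/-- the shift of the first coordinate -/
def aP (m : ℕ) : Equiv.Perm (Z m) where
  toFun z := (z.1 + 1, z.2)
  invFun z := (z.1 - 1, z.2)
  left_inv z := by simp
  right_inv z := by simp

/-- the shift of the second coordinate -/
def bP (m : ℕ) : Equiv.Perm (Z m) where
  toFun z := (z.1, z.2 + 1)
  invFun z := (z.1, z.2 - 1)
  left_inv z := by simp
  right_inv z := by simp

/-- the shift lengths of `c` -/
def tl (m : ℕ) (α : ℕ → ℕ) (s : Fin (m + 1)) : ℤ := if s = 0 then (m : ℤ) else (α (s.val - 1) : ℤ)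

/-- the permutation `c` -/
def cP (m : ℕ) (α : ℕ → ℕ) : Equiv.Perm (Z m) where
  toFun z := (z.1, z.2 + tl m α z.1)
  invFun z := (z.1, z.2 - tl m α z.1)
  left_inv z := by simp
  right_inv z := by simp

open Classical in
/-- the involution `d` as a function -/
noncomputable def dF (m : ℕ) (α β : ℕ → ℕ) (z : Z m) : Z m :=
  if z.1 = 0 then (Fin.ofNat (m + 1) ((z.2 % m).toNat + 1), fz m α β z.2)
  else if (α (z.1.val - 1) : ℤ) ∣ z.2 - β (z.1.val - 1) then
    (0, ((z.1.val - 1 : ℕ) : ℤ) + m * ((z.2 - β (z.1.val - 1)) / α (z.1.val - 1)))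
  else z

theorem dF_zero (m : ℕ) (hm : 0 < m) (α β : ℕ → ℕ) (i : ℕ) (hi : i < m) (q : ℤ) :
    dF m α β (0, i + m * q) = (Fin.ofNat (m + 1) (i + 1), β i + α i * q) := by
  have h1 : ((i : ℤ) + m * q) % m = i := by
    rw [Int.add_mul_emod_self_left]
    exact Int.emod_eq_of_lt (by positivity) (by exact_mod_cast hi)
  simp only [dF, if_true, h1, Int.toNat_natCast, fz_add m hm α β i hi q]

theorem val_succ (m : ℕ) (i : ℕ) (hi : i < m) : (Fin.ofNat (m + 1) (i + 1)).val = i + 1 := by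
  rw [Fin.val_ofNat]
  exact Nat.mod_eq_of_lt (by omega)

theorem succ_ne (m : ℕ) (i : ℕ) (hi : i < m) : Fin.ofNat (m + 1) (i + 1) ≠ 0 := by
  intro h
  have h1 := val_succ m i hi
  rw [h] at h1
  simp at h1

theorem dF_succ (m : ℕ) (α β : ℕ → ℕ) (hα : ∀ i, 1 ≤ α i) (i : ℕ) (hi : i < m)
    (q : ℤ) : dF m α β (Fin.ofNat (m + 1) (i + 1), β i + α i * q) = (0, i + m * q) := by
  have h1 := val_succ m i hi
  have h2 := succ_ne m i hi
  have h3 : (α i : ℤ) ≠ 0 := by
    have := hα i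
    exact_mod_cast (by omega : α i ≠ 0)
  have h4 : (β i + α i * q - β i : ℤ) = α i * q := by ring
  simp only [dF, h1, h2, if_false, Nat.add_sub_cancel, h4, dvd_mul_right, if_true,
    Int.mul_ediv_cancel_left _ h3]

/-- the three types of points -/
theorem cases_Z (m : ℕ) (hm : 0 < m) (α β : ℕ → ℕ) (z : Z m) :
    (∃ i, i < m ∧ ∃ q : ℤ, z = (0, i + m * q)) ∨
    (∃ i, i < m ∧ ∃ q : ℤ, z = (Fin.ofNat (m + 1) (i + 1), β i + α i * q)) ∨
    (∃ i, i < m ∧ ∃ n : ℤ, z = (Fin.ofNat (m + 1) (i + 1), n) ∧ ¬ (α i : ℤ) ∣ n - β i) := by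
  obtain ⟨s, n⟩ := z
  by_cases hs : s = 0
  · left
    have hm' : (m : ℤ) ≠ 0 := by exact_mod_cast hm.ne'
    refine ⟨(n % m).toNat, ?_, n / m, ?_⟩
    · have h1 := Int.emod_lt_of_pos n (by exact_mod_cast hm : (0 : ℤ) < m)
      have h2 := Int.emod_nonneg n hm'
      omega
    · rw [Int.toNat_of_nonneg (Int.emod_nonneg n hm'), hs, Int.emod_add_mul_ediv]
  · right
    have hs0 : s.val ≠ 0 := fun h => hs (Fin.ext h)
    have hs1 : Fin.ofNat (m + 1) (s.val - 1 + 1) = s := by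
      apply Fin.ext
      rw [val_succ m (s.val - 1) (by have := s.2; omega)]
      omega
    by_cases hd : (α (s.val - 1) : ℤ) ∣ n - β (s.val - 1)
    · left
      obtain ⟨q, hq⟩ := hd
      refine ⟨s.val - 1, by have := s.2; omega, q, ?_⟩
      rw [hs1]
      congr 1
      linarith
    · right
      refine ⟨s.val - 1, by have := s.2; omega, n, ?_, hd⟩
      rw [hs1]

theorem dF_other (m : ℕ) (α β : ℕ → ℕ) (i : ℕ) (hi : i < m) (n : ℤ)
    (h : ¬ (α i : ℤ) ∣ n - β i) :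
    dF m α β (Fin.ofNat (m + 1) (i + 1), n) = (Fin.ofNat (m + 1) (i + 1), n) := by
  have h1 := val_succ m i hi
  have h2 := succ_ne m i hi
  simp only [dF, h1, h2, if_false, Nat.add_sub_cancel, h]

theorem dF_inv (m : ℕ) (hm : 0 < m) (α β : ℕ → ℕ) (hα : ∀ i, 1 ≤ α i) :
    Function.Involutive (dF m α β) := by
  intro z
  rcases cases_Z m hm α β z with ⟨i, hi, q, rfl⟩ | ⟨i, hi, q, rfl⟩ | ⟨i, hi, n, rfl, hn⟩
  · rw [dF_zero m hm α β i hi, dF_succ m α β hα i hi]
  · rw [dF_succ m α β hα i hi, dF_zero m hm α β i hi]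
  · rw [dF_other m α β i hi n hn, dF_other m α β i hi n hn]

/-- the involution `d` -/
noncomputable def dP (m : ℕ) (hm : 0 < m) (α β : ℕ → ℕ) (hα : ∀ i, 1 ≤ α i) :
    Equiv.Perm (Z m) := (dF_inv m hm α β hα).toPerm

theorem tl_zero (m : ℕ) (α : ℕ → ℕ) : tl m α 0 = m := by simp [tl]

theorem tl_succ (m : ℕ) (α : ℕ → ℕ) (i : ℕ) (hi : i < m) :
    tl m α (Fin.ofNat (m + 1) (i + 1)) = α i := by
  simp only [tl, succ_ne m i hi, if_false, val_succ m i hi, Nat.add_sub_cancel]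

theorem comm_cd (m : ℕ) (hm : 0 < m) (α β : ℕ → ℕ) (hα : ∀ i, 1 ≤ α i) :
    Commute (cP m α) (dP m hm α β hα) := by
  apply Equiv.ext
  intro z
  change cP m α (dF m α β z) = dF m α β (cP m α z)
  rcases cases_Z m hm α β z with ⟨i, hi, q, rfl⟩ | ⟨i, hi, q, rfl⟩ | ⟨i, hi, n, rfl, hn⟩
  · have e : cP m α (0, (i : ℤ) + m * q) = (0, (i : ℤ) + m * (q + 1)) := by
      change ((0 : Fin (m + 1)), (i : ℤ) + m * q + tl m α 0) = _
      rw [tl_zero]
      congr 1
      ring
    rw [e, dF_zero m hm α β i hi, dF_zero m hm α β i hi]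
    change (Fin.ofNat (m + 1) (i + 1), (β i : ℤ) + α i * q +
      tl m α (Fin.ofNat (m + 1) (i + 1))) = _
    rw [tl_succ m α i hi]
    congr 1
    ring
  · have e : cP m α (Fin.ofNat (m + 1) (i + 1), (β i : ℤ) + α i * q) =
        (Fin.ofNat (m + 1) (i + 1), (β i : ℤ) + α i * (q + 1)) := by
      change (Fin.ofNat (m + 1) (i + 1), (β i : ℤ) + α i * q +
        tl m α (Fin.ofNat (m + 1) (i + 1))) = _
      rw [tl_succ m α i hi]
      congr 1
      ring
    rw [e, dF_succ m α β hα i hi, dF_succ m α β hα i hi]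
    change ((0 : Fin (m + 1)), (i : ℤ) + m * q + tl m α 0) = _
    rw [tl_zero]
    congr 1
    ring
  · have e : cP m α (Fin.ofNat (m + 1) (i + 1), n) = (Fin.ofNat (m + 1) (i + 1), n + α i) := by
      change (Fin.ofNat (m + 1) (i + 1), n + tl m α (Fin.ofNat (m + 1) (i + 1))) = _
      rw [tl_succ m α i hi]
    have hn' : ¬ (α i : ℤ) ∣ n + α i - β i := by
      intro h
      apply hn
      have e2 : n - β i = (n + α i - β i) - α i := by ring
      rw [e2]
      exact dvd_sub h dvd_rfl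
    rw [dF_other m α β i hi n hn, e, dF_other m α β i hi _ hn']

theorem rel_dF (m : ℕ) (hm : 0 < m) (α β : ℕ → ℕ) (hα : ∀ i, 1 ≤ α i) (N : ℕ) (z : Z m) :
    Rel m α β N (dF m α β z).2 ↔ Rel m α β N z.2 := by
  rcases cases_Z m hm α β z with ⟨i, hi, q, rfl⟩ | ⟨i, hi, q, rfl⟩ | ⟨i, hi, n, rfl, hn⟩
  · rw [dF_zero m hm α β i hi]
    change Rel m α β N (β i + α i * q) ↔ Rel m α β N (i + m * q)
    rw [← fz_add m hm α β i hi q, rel_fz]
  · rw [dF_succ m α β hα i hi]
    change Rel m α β N (i + m * q) ↔ Rel m α β N (β i + α i * q)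
    rw [← fz_add m hm α β i hi q, rel_fz]
  · rw [dF_other m α β i hi n hn]

theorem aP_pow (m k : ℕ) (z : Z m) : (aP m ^ k) z = (z.1 + Fin.ofNat (m + 1) k, z.2) := by
  induction k with
  | zero =>
    have h : Fin.ofNat (m + 1) 0 = 0 := rfl
    rw [pow_zero, h, add_zero]
    rfl
  | succ k ih =>
    rw [pow_succ', Equiv.Perm.mul_apply, ih]
    change (z.1 + Fin.ofNat (m + 1) k + 1, z.2) = _
    rw [add_assoc]
    congr 2
    apply Fin.ext
    simp [Fin.val_add]

theorem bP_pow (m k : ℕ) (z : Z m) : (bP m ^ k) z = (z.1, z.2 + k) := by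
  induction k with
  | zero => simp
  | succ k ih =>
    rw [pow_succ', Equiv.Perm.mul_apply, ih]
    change (z.1, z.2 + k + 1) = _
    push_cast
    congr 1
    ring

theorem bP_pow_inv (m k : ℕ) (z : Z m) : (bP m ^ k)⁻¹ z = (z.1, z.2 - k) := by
  rw [Equiv.Perm.inv_eq_iff_eq, bP_pow]
  simp

/-- the generators fix the base point -/
theorem fix_KL (m : ℕ) (hm : 0 < m) (α β : ℕ → ℕ) (hα : ∀ i, 1 ≤ α i) (g : Equiv.Perm (Z m))
    (hg : g ∈ KL m α β (aP m) (bP m) (cP m α) (dP m hm α β hα)) : g (0, 0) = (0, 0) := by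
  simp only [KL, List.mem_cons, List.mem_flatMap, List.mem_range, List.not_mem_nil, or_false] at hg
  have ha : ∀ i, i < m → (aP m ^ (i + 1)) (0, 0) = (Fin.ofNat (m + 1) (i + 1), 0) := by
    intro i hi
    rw [aP_pow]
    simp
  rcases hg with rfl | ⟨i, hi, rfl | rfl⟩
  · rw [Equiv.Perm.mul_apply, bP_pow_inv]
    change ((0 : Fin (m + 1)), (0 : ℤ) - m + tl m α 0) = _
    rw [tl_zero]
    simp
  · rw [Equiv.Perm.mul_apply, ha i hi, Equiv.Perm.mul_apply, bP_pow_inv, Equiv.Perm.mul_apply,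
      Equiv.Perm.inv_eq_iff_eq, ha i hi]
    change (Fin.ofNat (m + 1) (i + 1), (0 : ℤ) - α i + tl m α (Fin.ofNat (m + 1) (i + 1))) = _
    rw [tl_succ m α i hi]
    simp
  · rw [Equiv.Perm.mul_apply, ha i hi, Equiv.Perm.mul_apply, bP_pow, Equiv.Perm.mul_apply,
      Equiv.Perm.inv_eq_iff_eq, bP_pow]
    change dF m α β (Fin.ofNat (m + 1) (i + 1), 0 + (β i : ℤ)) = (0, 0 + (i : ℤ))
    have e := dF_succ m α β hα i hi 0
    rw [mul_zero, mul_zero, add_zero, add_zero] at e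
    rw [zero_add, zero_add, e]

theorem KL_map {G H : Type} [Group G] [Group H] (φ : G →* H) (m : ℕ) (α β : ℕ → ℕ)
    (a b c d : G) : (KL m α β a b c d).map φ = KL m α β (φ a) (φ b) (φ c) (φ d) := by
  simp only [KL, List.map_cons, List.map_flatMap, List.map_nil, map_mul, map_inv, map_pow]

/-- extension of a permutation of `Z` -/
def lft (m : ℕ) : Equiv.Perm (Z m) →* Equiv.Perm (Z m × ZMod 2) where
  toFun g := g.prodCongr (Equiv.refl _)
  map_one' := rfl
  map_mul' _ _ := rfl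

theorem lft_apply (m : ℕ) (g : Equiv.Perm (Z m)) (y : Z m × ZMod 2) :
    lft m g y = (g y.1, y.2) := rfl

/-- the twist -/
def piP (m : ℕ) (χ : Z m → ZMod 2) : Equiv.Perm (Z m × ZMod 2) where
  toFun y := (y.1, y.2 + χ y.1)
  invFun y := (y.1, y.2 - χ y.1)
  left_inv y := by simp
  right_inv y := by simp

theorem piP_comm (m : ℕ) (χ : Z m → ZMod 2) (g : Equiv.Perm (Z m)) (hg : ∀ z, χ (g z) = χ z) :
    Commute (piP m χ) (lft m g) := by
  apply Equiv.ext
  intro y
  change (g y.1, y.2 + χ (g y.1)) = (g y.1, y.2 + χ y.1)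
  rw [hg]

end Snd

open Snd in
theorem sound (m : ℕ) (hm : 0 < m) (α β : ℕ → ℕ) (hα : ∀ i, 1 ≤ α i) (hβ : β 0 = 0) (N : ℕ)
    (h : ¬ ∃ k, (cf m α β)^[k] N = 0) :
    ∃ (Y : Type) (X : Hex (Equiv.Perm Y)), X.ev (wN N) ∉ X.sub m α β := by
  classical
  set χ : Z m → ZMod 2 := fun z => if Rel m α β N z.2 then 1 else 0 with hχ
  set P := piP m χ with hP
  set A := lft m (aP m) with hA
  set B := lft m (bP m) with hB
  set C := lft m (cP m α) with hC
  set D := lft m (dP m hm α β hα) with hD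
  have hPA : Commute P A := piP_comm m χ _ (fun z => rfl)
  have hPD : Commute P D := piP_comm m χ _ (fun z => by
    change χ (dF m α β z) = χ z
    simp only [hχ, rel_dF m hm α β hα N z])
  have hab : Commute (aP m) (bP m) := Equiv.ext fun z => rfl
  have hcb : Commute (cP m α) (bP m) := Equiv.ext fun z => by
    change (z.1, z.2 + 1 + tl m α z.1) = (z.1, z.2 + tl m α z.1 + 1)
    rw [add_right_comm]
  have hAB : Commute A B := hab.map (lft m)
  have hCB : Commute C B := hcb.map (lft m)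
  have hCD : Commute C D := (comm_cd m hm α β hα).map (lft m)
  have conjA : P * A * P⁻¹ = A := by rw [hPA.eq, mul_inv_cancel_right]
  have conjD : P * D * P⁻¹ = D := by rw [hPD.eq, mul_inv_cancel_right]
  have hconj : ∀ x y : Equiv.Perm (Z m × ZMod 2), Commute x y →
      Commute (P * x * P⁻¹) (P * y * P⁻¹) := by
    intro x y hxy
    have := hxy.map (MulAut.conj P).toMonoidHom
    exact this
  have hcomm : ∀ j k : Fin 3, j ≠ k →
      Commute ((![P * C * P⁻¹, C, A] : Fin 3 → Equiv.Perm (Z m × ZMod 2)) j)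
        ((![B, P * B * P⁻¹, D] : Fin 3 → Equiv.Perm (Z m × ZMod 2)) k) := by
    intro j k hjk
    fin_cases j <;> fin_cases k
    · exact absurd rfl hjk
    · exact hconj _ _ hCB
    · have := hconj _ _ hCD
      rw [conjD] at this
      exact this
    · exact hCB
    · exact absurd rfl hjk
    · exact hCD
    · exact hAB
    · have := hconj _ _ hAB
      rw [conjA] at this
      exact this
    · exact absurd rfl hjk
  let X : Hex (Equiv.Perm (Z m × ZMod 2)) :=
    { r := ![P * C * P⁻¹, C, A], p := ![B, P * B * P⁻¹, D], comm := hcomm }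
  have eA : X.ev la = A := by simp [Hex.ev, la, X]
  have eB : X.ev lb = B := by simp [Hex.ev, lb, X]
  have eB' : X.ev lb' = P * B * P⁻¹ := by simp [Hex.ev, lb', X]
  have eC : X.ev lc = C := by simp [Hex.ev, lc, X]
  have eC' : X.ev lc' = P * C * P⁻¹ := by simp [Hex.ev, lc', X]
  have eD : X.ev ld = D := by simp [Hex.ev, ld, X]
  set y0 : Z m × ZMod 2 := ((0, 0), 0) with hy0
  have hχ0 : χ (0, 0) = 0 := by
    simp only [hχ]
    rw [if_neg (not_rel_zero m α β hβ N h)]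
  have hχN : ∀ s, χ (s, (N : ℤ)) = 1 := by
    intro s
    simp only [hχ]
    rw [if_pos (rel_self m α β N)]
  have hPy : P y0 = y0 := by
    change ((0, 0), (0 : ZMod 2) + χ (0, 0)) = _
    rw [hχ0, add_zero]
  have hfix : ∀ g ∈ KL m α β A B C D, g y0 = y0 := by
    intro g hg
    rw [hA, hB, hC, hD, ← KL_map, List.mem_map] at hg
    obtain ⟨g', hg', rfl⟩ := hg
    rw [lft_apply, hy0]
    simp only [fix_KL m hm α β hα g' hg']
  have hfix' : ∀ g ∈ KL m α β A (P * B * P⁻¹) (P * C * P⁻¹) D, g y0 = y0 := by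
    intro g hg
    have e := KL_map (MulAut.conj P).toMonoidHom m α β A B C D
    simp only [MulEquiv.coe_toMonoidHom, MulAut.conj_apply, conjA, conjD] at e
    rw [← e, List.mem_map] at hg
    obtain ⟨g', hg', rfl⟩ := hg
    have h1 : P⁻¹ y0 = y0 := by rw [Equiv.Perm.inv_eq_iff_eq, hPy]
    simp only [MulAut.conj_apply, Equiv.Perm.mul_apply, h1, hfix g' hg', hPy]
  refine ⟨Z m × ZMod 2, X, fun hmem => ?_⟩
  have hsub : X.sub m α β ≤ MulAction.stabilizer (Equiv.Perm (Z m × ZMod 2)) y0 := by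
    rw [Hex.sub, Subgroup.closure_le]
    rintro x ⟨g, hg, rfl⟩
    rw [SetLike.mem_coe, MulAction.mem_stabilizer_iff, Equiv.Perm.smul_def]
    rw [gensL, List.mem_append] at hg
    rcases hg with hg | hg
    · apply hfix
      rw [← eA, ← eB, ← eC, ← eD, ← KL_map]
      exact List.mem_map_of_mem hg
    · apply hfix'
      rw [← eA, ← eB', ← eC', ← eD, ← KL_map]
      exact List.mem_map_of_mem hg
  have h1 := hsub hmem
  rw [MulAction.mem_stabilizer_iff, Equiv.Perm.smul_def, wN, map_mul, map_inv, map_pow, map_pow,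
    eB, eB', Equiv.Perm.mul_apply, Equiv.Perm.inv_eq_iff_eq, conj_pow, Equiv.Perm.mul_apply,
    Equiv.Perm.mul_apply] at h1
  have h2 : P⁻¹ y0 = y0 := by rw [Equiv.Perm.inv_eq_iff_eq, hPy]
  have h3 : (B ^ N) y0 = ((0, (N : ℤ)), 0) := by
    rw [hB, ← map_pow, lft_apply, bP_pow]
    simp [hy0]
  rw [h2, h3] at h1
  have h4 : P ((0, (N : ℤ)), 0) = ((0, (N : ℤ)), 1) := by
    change ((0, (N : ℤ)), (0 : ZMod 2) + χ (0, (N : ℤ))) = _
    rw [hχN, zero_add]
  rw [h4] at h1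
  have h5 := congrArg Prod.snd h1
  simp at h5

end Braid60
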