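import Pool.Agent.Braid60.Mach
import Pool.Agent.Braid60.Collatz

/-!
Module UNDEC. A Collatz-type function for which it is undecidable whether `0` is reached.
-/

set_option autoImplicit false

namespace Braid60

theorem exists_collatz : ∃ (m : ℕ) (α β enc : ℕ → ℕ), 0 < m ∧ (∀ i, 1 ≤ α i) ∧ β 0 = 0 ∧
    Computable enc ∧ ¬ ComputablePred (fun n => ∃ k, (cf m α β)^[k] (enc n) = 0) := by
  obtain ⟨M, s0, s1, r, x0, A, B, hM⟩ := exists_CM
  obtain ⟨m, α, β, P, Q, hm, hα, hβ, h⟩ := collatz_of_CM M
  classical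
  have hprod : ∀ x : ℕ, ∏ i, Q i ^ (if i = r then x else 0) = Q r ^ x := by
    intro x
    rw [Finset.prod_eq_single r]
    · simp
    · intro b _ hb; simp [hb]
    · intro hr; exact absurd (Finset.mem_univ r) hr
  let g : ℕ → ℕ := fun n => Nat.rec x0 (fun _ y => A + B * y) n
  have hg : Primrec g := by
    have : Primrec₂ (fun (_ : ℕ) (y : ℕ) => A + B * y) :=
      (Primrec.nat_add.comp (Primrec.const A)
        (Primrec.nat_mul.comp (Primrec.const B) Primrec.snd))
    exact Primrec.nat_rec₁ x0 this
  have hpow : Primrec₂ (fun a b : ℕ => a ^ b) := Primrec₂.unpaired'.1 Nat.Primrec.pow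
  refine ⟨m, α, β, fun n => (if n = 0 then P s0 else P s1) * Q r ^ g n, hm, hα, hβ, ?_, ?_⟩
  · apply Primrec.to_comp
    refine Primrec.nat_mul.comp ?_ (hpow.comp (Primrec.const (Q r)) hg)
    exact Primrec.ite (Primrec.eq.comp Primrec.id (Primrec.const 0)) (Primrec.const _)
      (Primrec.const _)
  · intro hc
    apply hM
    have e : (fun n : ℕ => M.Halts (if n = 0 then s0 else s1,
      fun i => open Classical in if i = r then (Nat.rec x0 (fun _ y => A + B * y) n : ℕ) else 0)) =
      (fun n => ∃ k, (cf m α β)^[k] ((if n = 0 then P s0 else P s1) * Q r ^ g n) = 0) := by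
      funext n
      rw [h]
      refine congrArg (fun z => ∃ k, (cf m α β)^[k] z = 0) ?_
      have e1 : P (if n = 0 then s0 else s1) * ∏ i, Q i ^ (if i = r then g n else 0) =
          (if n = 0 then P s0 else P s1) * Q r ^ g n := by
        rw [hprod]
        split_ifs <;> rfl
      exact e1
    rw [e]
    exact hc

end Braid60
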