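import Pool.Agent.Braid60.Faith
import Pool.Agent.Braid60.Undec
import Pool.Agent.Braid60.Complete
import Pool.Agent.Braid60.Sound

/-!
Module FINAL. Undecidability of the occurrence problem in `B_4`.
-/

set_option autoImplicit false

namespace Braid60

/-- membership in the fixed subgroup of `B_4` is equivalent to reaching `0` -/
theorem mem_iff (m : ℕ) (hm : 0 < m) (α β : ℕ → ℕ) (hα : ∀ i, 1 ≤ α i) (hβ : β 0 = 0) (N : ℕ) :
    braidHex.ev (wN N) ∈ braidHex.sub m α β ↔ ∃ k, (cf m α β)^[k] N = 0 := by
  constructor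
  · intro h
    by_contra hN
    obtain ⟨Y, X, hX⟩ := sound m hm α β hα hβ N hN
    apply hX
    have hmap : ∀ {G : Type} [Group G] (Z : Hex G), Z.sub m α β =
        (Subgroup.closure {g | g ∈ gensL m α β}).map Z.ev := by
      intro G _ Z
      rw [MonoidHom.map_closure, Hex.sub]
      congr 1
      ext x
      simp only [Set.mem_setOf_eq, Set.mem_image, eq_comm]
    rw [hmap] at h ⊢
    obtain ⟨V, hV, hVe⟩ := h
    refine ⟨V, hV, ?_⟩
    have h1 : braidHex.ev (V⁻¹ * wN N) = 1 := by
      rw [map_mul, map_inv, hVe, inv_mul_cancel]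
    have h2 := faithful _ h1 X
    rw [map_mul, map_inv, inv_mul_eq_one] at h2
    exact h2
  · exact complete braidHex m hm α β N

/-- lists of letters representing the elements -/
theorem mk_surj (x : B4) : ∃ l : List (Fin 3 × Bool), PresentedGroup.mk rels (FreeGroup.mk l) = x := by
  obtain ⟨y, rfl⟩ := PresentedGroup.mk_surjective rels x
  obtain ⟨l, rfl⟩ := Quot.exists_rep y
  exact ⟨l, rfl⟩

theorem undecidable : ¬ ∃ f : List (List (Fin 3 × Bool)) × List (Fin 3 × Bool) → Bool,
      Computable f ∧
      ∀ (gens : List (List (Fin 3 × Bool))) (w : List (Fin 3 × Bool)),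
        f (gens, w) = true ↔ PresentedGroup.mk rels (FreeGroup.mk w) ∈
            Subgroup.closure {x | ∃ g ∈ gens, x = PresentedGroup.mk rels (FreeGroup.mk g)} := by
  rintro ⟨f, hf, hfs⟩
  obtain ⟨m, α, β, enc, hm, hα, hβ, henc, hund⟩ := exists_collatz
  apply hund
  choose L hL using mk_surj
  -- the fixed generators
  let gens : List (List (Fin 3 × Bool)) := (gensL m α β).map (fun g => L (braidHex.ev g))
  have hgens : Subgroup.closure {x | ∃ g ∈ gens, x = PresentedGroup.mk rels (FreeGroup.mk g)} =
      braidHex.sub m α β := by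
    rw [Hex.sub]
    congr 1
    ext x
    simp only [gens, List.mem_map, Set.mem_setOf_eq]
    constructor
    · rintro ⟨_, ⟨g, hg, rfl⟩, rfl⟩
      exact ⟨g, hg, hL _⟩
    · rintro ⟨g, hg, rfl⟩
      exact ⟨_, ⟨g, hg, rfl⟩, (hL _).symm⟩
  -- the words
  let U : List (Fin 3 × Bool) := L ((braidHex.p 1)⁻¹)
  let V : List (Fin 3 × Bool) := L (braidHex.p 0)
  let w : ℕ → List (Fin 3 × Bool) := fun n => Nat.rec [] (fun _ y => U ++ (y ++ V)) n
  have hw : Primrec w := by
    have : Primrec₂ (fun (_ : ℕ) (y : List (Fin 3 × Bool)) => U ++ (y ++ V)) :=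
      Primrec.list_append.comp (Primrec.const U)
        (Primrec.list_append.comp Primrec.snd (Primrec.const V))
    exact Primrec.nat_rec₁ [] this
  have hwe : ∀ n, PresentedGroup.mk rels (FreeGroup.mk (w n)) = braidHex.ev (wN n) := by
    intro n
    have h1 : PresentedGroup.mk rels (FreeGroup.mk (w n)) =
        ((braidHex.p 1) ^ n)⁻¹ * (braidHex.p 0) ^ n := by
      induction n with
      | zero =>
        change PresentedGroup.mk rels (FreeGroup.mk []) = _
        have : (FreeGroup.mk [] : FreeGroup (Fin 3)) = 1 := rfl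
        rw [this]
        simp
      | succ n ih =>
        have e : w (n + 1) = U ++ (w n ++ V) := rfl
        rw [e, ← FreeGroup.mul_mk, ← FreeGroup.mul_mk, map_mul, map_mul, ih, hL, hL, pow_succ,
          pow_succ, mul_inv_rev]
        group
    rw [h1]
    simp [wN, Hex.ev, lb, lb']
  rw [ComputablePred.computable_iff]
  refine ⟨fun n => f (gens, w (enc n)), hf.comp ((Computable.const gens).pair
    (hw.to_comp.comp henc)), ?_⟩
  funext n
  rw [eq_iff_iff, ← mem_iff m hm α β hα hβ, hfs, hgens, hwe]

end Braid60
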