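import Pool.Agent.Braid60.CMach
import Pool.Agent.Star60.SMach

/-!
Module MACH. Simulation of the multi-stack machines `Star60.SM` by counter machines.

`bb = |A| + 1`, digits `dg : Option A → {0, …, |A|}` with `dg none = 0`, `cod [] = 0`,
`cod (a :: l) = dg (some a) + bb * cod l`.
Registers: `Option κ` (`none` is auxiliary). The states cache the tops `h : κ → Option A` of the
stacks; the modes are `main`, `pushA k`, `pushB k`, `popA k`, `popB k j`, `j : Fin bb`.
* `main (c,h)`: `step c h = none`: halt; `stay`: go to `main (c',h)`;
  `push a` on `k`: add `dg a` to aux, go to `pushA` with the tops `update h k (some a)`;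
  `pop` on `k`: subtract `dg (h k)` from `x_k`, go to `popA`.
* `pushA`: while `x_k ≥ 1`: `x_k -= 1, aux += bb`; then `pushB`: while `aux ≥ 1`: `aux -= 1`,
  `x_k += 1`; then `main (c',h')`.
* `popA`: while `x_k ≥ bb`: `x_k -= bb, aux += 1`; then `popB` with `j = 0`: while `aux ≥ 1`:
  `aux -= 1, x_k += 1, j += 1`; then `main (c', update h k (top of the digit j))`.
-/

set_option autoImplicit false

namespace Braid60

open Star60

namespace MachAux

/-- modes of the counter machine -/
inductive Md (K : Type) (n : ℕ) : Type where
  | main : Md K n
  | pushA : K → Md K n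
  | pushB : K → Md K n
  | popA : K → Md K n
  | popB : K → Fin n → Md K n
  deriving Fintype

/-- the vector with entry `v` at `r` -/
def sg {R : Type} [DecidableEq R] (r : R) (v : ℕ) : R → ℕ := fun i => if i = r then v else 0

open Classical in
/-- one step, unbundled -/
noncomputable def stp {S R : Type} (ins : S → Option ((R → ℕ) × (R → ℕ) × S × S))
    (c : S × (R → ℕ)) : S × (R → ℕ) :=
  match ins c.1 with
  | none => c
  | some (v, w, s1, s2) => if v ≤ c.2 then (s1, c.2 - v + w) else (s2, c.2)

theorem stp_pos {S R : Type} (ins : S → Option ((R → ℕ) × (R → ℕ) × S × S)) (s : S) (x : R → ℕ)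
    (v w : R → ℕ) (s1 s2 : S) (h : ins s = some (v, w, s1, s2)) (hv : v ≤ x) :
    stp ins (s, x) = (s1, x - v + w) := by
  simp only [stp, h]
  rw [if_pos hv]

theorem stp_neg {S R : Type} (ins : S → Option ((R → ℕ) × (R → ℕ) × S × S)) (s : S) (x : R → ℕ)
    (v w : R → ℕ) (s1 s2 : S) (h : ins s = some (v, w, s1, s2)) (hv : ¬ v ≤ x) :
    stp ins (s, x) = (s2, x) := by
  simp only [stp, h]
  rw [if_neg hv]

/-- loops: from `x p = u * t + r` the machine passes `t` times through the loop -/
theorem loop {S R : Type} (ins : S → Option ((R → ℕ) × (R → ℕ) × S × S)) [DecidableEq R]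
    {J : Type} (s s2 : J → S) (nx : J → J) (p q : R)
    (hpq : p ≠ q) (u w r : ℕ) (hr : r < u)
    (hins : ∀ j, ins (s j) = some (sg p u, sg q w, s (nx j), s2 j)) :
    ∀ (t : ℕ) (j : J) (x : R → ℕ), x p = u * t + r →
      (stp ins)^[t + 1] (s j, x) =
        (s2 (nx^[t] j), Function.update (Function.update x p r) q (x q + w * t)) := by
  intro t
  induction t with
  | zero =>
    intro j x hx
    have hn : ¬ (sg p u ≤ x) := by
      intro h
      have h1 := h p
      simp only [sg, if_true] at h1
      omega
    have h1 : stp ins (s j, x) = (s2 j, x) := stp_neg ins _ _ _ _ _ _ (hins j) hn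
    have h2 : x p = r := by simpa using hx
    simp only [zero_add, Function.iterate_one, h1, Function.iterate_zero, id_eq, Nat.mul_zero,
      Nat.add_zero, Prod.mk.injEq, true_and]
    rw [← h2, Function.update_eq_self, Function.update_eq_self]
  | succ t ih =>
    intro j x hx
    have hp : sg p u ≤ x := by
      intro i
      by_cases hi : i = p
      · subst hi
        simp only [sg, if_true]
        rw [hx, Nat.mul_succ]
        omega
      · simp [sg, hi]
    have h1 : stp ins (s j, x) = (s (nx j), x - sg p u + sg q w) :=
      stp_pos ins _ _ _ _ _ _ (hins j) hp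
    have hxp : (x - sg p u + sg q w) p = u * t + r := by
      simp only [Pi.add_apply, Pi.sub_apply, sg, if_true, hpq, if_false]
      rw [hx, Nat.mul_succ]
      omega
    have hxq : (x - sg p u + sg q w) q = x q + w := by
      simp [sg, hpq.symm]
    rw [Function.iterate_succ_apply, h1, ih _ _ hxp, hxq]
    refine Prod.ext ?_ ?_
    · simp only [Function.iterate_succ_apply]
    · funext i
      by_cases hi : i = q
      · subst hi
        simp only [Function.update_self]
        ring
      · by_cases hi2 : i = p
        · subst hi2
          simp [Function.update_of_ne hi]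
        · simp [sg, hi, hi2]

section

variable (M : SM)

/-- the base of the encoding -/
abbrev bb : ℕ := Fintype.card M.A + 1

/-- digits -/
noncomputable def en : Option M.A ≃ Fin (bb M) :=
  (Equiv.optionCongr (Fintype.equivFin M.A)).trans (finSuccEquiv _).symm

theorem en_none : en M none = 0 := by
  simp [en]

/-- digits as natural numbers -/
noncomputable def dg (o : Option M.A) : ℕ := (en M o).val

theorem dg_none : dg M none = 0 := by
  simp [dg, en_none]

theorem dg_lt (o : Option M.A) : dg M o < bb M := (en M o).isLt

/-- code of a stack -/
noncomputable def cod : List M.A → ℕ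
  | [] => 0
  | a :: l => dg M (some a) + bb M * cod l

theorem cod_eq (l : List M.A) : cod M l = dg M l.head? + bb M * cod M l.tail := by
  cases l with
  | nil => simp [cod, dg_none]
  | cons a l => simp [cod]

theorem cod_mod (l : List M.A) : cod M l % bb M = dg M l.head? := by
  rw [cod_eq, Nat.add_mul_mod_self_left, Nat.mod_eq_of_lt (dg_lt M _)]

/-- instructions in the mode `main` -/
noncomputable def insMain (h : M.κ → Option M.A) :
    Option (M.C × M.κ × SOp M.A) →
    Option ((Option M.κ → ℕ) × (Option M.κ → ℕ) ×
      ((M.C × (M.κ → Option M.A)) × Md M.κ (bb M)) × ((M.C × (M.κ → Option M.A)) × Md M.κ (bb M)))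
  | none => none
  | some (c, _, .stay) => some (0, 0, ((c, h), .main), ((c, h), .main))
  | some (c, k, .push a) => some (0, sg none (dg M (some a)),
      ((c, Function.update h k (some a)), .pushA k), ((c, h), .main))
  | some (c, k, .pop) => some (sg (some k) (dg M (h k)), 0, ((c, h), .popA k), ((c, h), .main))

/-- instructions -/
noncomputable def insAll : ((M.C × (M.κ → Option M.A)) × Md M.κ (bb M)) →
    Option ((Option M.κ → ℕ) × (Option M.κ → ℕ) ×
      ((M.C × (M.κ → Option M.A)) × Md M.κ (bb M)) × ((M.C × (M.κ → Option M.A)) × Md M.κ (bb M)))
  | ((c, h), .main) => insMain M h (M.step c h)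
  | (z, .pushA k) => some (sg (some k) 1, sg none (bb M), (z, .pushA k), (z, .pushB k))
  | (z, .pushB k) => some (sg none 1, sg (some k) 1, (z, .pushB k), (z, .main))
  | (z, .popA k) => some (sg (some k) (bb M), sg none 1, (z, .popA k), (z, .popB k 0))
  | (z, .popB k j) => some (sg none 1, sg (some k) 1, (z, .popB k (j + 1)),
      ((z.1, Function.update z.2 k ((en M).symm j)), .main))

/-- the counter machine -/
noncomputable def mach : CM where
  S := (M.C × (M.κ → Option M.A)) × Md M.κ (bb M)
  R := Option M.κ
  fS := inferInstance
  fR := inferInstance
  ins := insAll M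

/-- values of the registers -/
noncomputable def regs (S : M.κ → List M.A) : Option M.κ → ℕ
  | none => 0
  | some k => cod M (S k)

/-- configurations of the counter machine -/
noncomputable def enc (a : M.C × (M.κ → List M.A)) :
    ((M.C × (M.κ → Option M.A)) × Md M.κ (bb M)) × (Option M.κ → ℕ) :=
  (((a.1, fun k => (a.2 k).head?), .main), regs M a.2)

theorem enc_none (a : M.C × (M.κ → List M.A)) (h : M.next a = none) :
    insAll M (enc M a).1 = none := by
  have h1 : M.step a.1 (fun k => (a.2 k).head?) = none := by
    simpa [SM.next] using h
  change insMain M _ (M.step a.1 (fun k => (a.2 k).head?)) = none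
  rw [h1]
  rfl

theorem enc_some (a b : M.C × (M.κ → List M.A)) (h : M.next a = some b) :
    insAll M (enc M a).1 ≠ none := by
  change insMain M _ (M.step a.1 (fun k => (a.2 k).head?)) ≠ none
  rw [SM.next] at h
  cases h1 : M.step a.1 (fun k => (a.2 k).head?) with
  | none => rw [h1] at h; simp at h
  | some y =>
    obtain ⟨c, k, o⟩ := y
    cases o <;> simp [insMain]

/-- the mode `pushB` -/
theorem run_pushB (z : M.C × (M.κ → Option M.A)) (k : M.κ) (x : Option M.κ → ℕ) :
    (stp (insAll M))^[x none + 1] ((z, .pushB k), x) =
      ((z, .main), Function.update (Function.update x none 0) (some k) (x (some k) + x none)) := by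
  have := loop (insAll M) (J := Unit) (fun _ => (z, .pushB k)) (fun _ => (z, .main)) id
    (none : Option M.κ) (some k) (by simp) 1 1 0 (by norm_num) (fun _ => rfl) (x none) () x
    (by simp)
  simpa using this

theorem run_pushA (z : M.C × (M.κ → Option M.A)) (k : M.κ) (x : Option M.κ → ℕ) :
    (stp (insAll M))^[x (some k) + 1] ((z, .pushA k), x) =
      ((z, .pushB k), Function.update (Function.update x (some k) 0) none
        (x none + bb M * x (some k))) := by
  have := loop (insAll M) (J := Unit) (fun _ => (z, .pushA k)) (fun _ => (z, .pushB k)) id
    (some k) (none : Option M.κ) (by simp) 1 (bb M) 0 (by norm_num) (fun _ => rfl) (x (some k)) () x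
    (by simp)
  simpa using this

theorem run_popA (z : M.C × (M.κ → Option M.A)) (k : M.κ) (x : Option M.κ → ℕ) (t : ℕ)
    (ht : x (some k) = bb M * t) :
    (stp (insAll M))^[t + 1] ((z, .popA k), x) =
      ((z, .popB k 0), Function.update (Function.update x (some k) 0) none (x none + t)) := by
  have := loop (insAll M) (J := Unit) (fun _ => (z, .popA k)) (fun _ => (z, .popB k 0)) id
    (some k) (none : Option M.κ) (by simp) (bb M) 1 0 (by simp [bb]) (fun _ => rfl) t () x
    (by simp [ht])
  simpa using this

theorem run_popB (z : M.C × (M.κ → Option M.A)) (k : M.κ) (x : Option M.κ → ℕ)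
    (j : Fin (bb M)) :
    (stp (insAll M))^[x none + 1] ((z, .popB k j), x) =
      (((z.1, Function.update z.2 k ((en M).symm ((fun j => j + 1)^[x none] j))), .main),
        Function.update (Function.update x none 0) (some k) (x (some k) + x none)) := by
  have := loop (insAll M) (J := Fin (bb M)) (fun j => (z, .popB k j))
    (fun j => ((z.1, Function.update z.2 k ((en M).symm j)), .main)) (fun j => j + 1)
    (none : Option M.κ) (some k) (by simp) 1 1 0 (by norm_num) (fun _ => rfl) (x none) j x
    (by simp)
  simpa using this

theorem iter_succ (n t : ℕ) : ((fun j : Fin (n + 1) => j + 1)^[t] 0).val = t % (n + 1) := by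
  induction t with
  | zero => simp
  | succ t ih =>
    rw [Function.iterate_succ_apply', Fin.val_add, ih]
    simp [Nat.add_mod]

theorem top_eq (l : List M.A) : (en M).symm ((fun j => j + 1)^[cod M l] 0) = l.head? := by
  rw [Equiv.symm_apply_eq]
  apply Fin.ext
  rw [iter_succ]
  exact cod_mod M l

theorem sim (a b : M.C × (M.κ → List M.A)) (h : M.next a = some b) :
    ∃ t, (stp (insAll M))^[t + 1] (enc M a) = enc M b := by
  obtain ⟨c, S⟩ := a
  rw [SM.next] at h
  cases h1 : M.step c (fun k => (S k).head?) with
  | none => rw [h1] at h; simp at h
  | some y =>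
    obtain ⟨c', k, o⟩ := y
    rw [h1] at h
    simp only [Option.map_some, Option.some.injEq] at h
    subst h
    have hins : insAll M (enc M (c, S)).1 =
        insMain M (fun k => (S k).head?) (some (c', k, o)) := by
      rw [← h1]
      rfl
    cases o with
    | stay =>
      refine ⟨0, ?_⟩
      have hins2 : insAll M (enc M (c, S)).1 =
        some (0, 0, ((c', fun k => (S k).head?), .main), ((c', fun k => (S k).head?), .main)) := hins
      have e1 : stp (insAll M) (enc M (c, S)) = _ :=
        stp_pos (insAll M) _ _ _ _ _ _ hins2 (fun _ => Nat.zero_le _)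
      simp only [zero_add, Function.iterate_one, e1, SOp.app, Function.update_eq_self]
      rfl
    | push a0 =>
      have hins2 : insAll M (enc M (c, S)).1 =
        some (0, sg none (dg M (some a0)),
          ((c', Function.update (fun k => (S k).head?) k (some a0)), .pushA k),
          ((c', fun k => (S k).head?), .main)) := hins
      have e1 : stp (insAll M) (enc M (c, S)) =
          (((c', Function.update (fun k => (S k).head?) k (some a0)), .pushA k),
            regs M S + sg none (dg M (some a0))) :=
        stp_pos (insAll M) _ _ _ _ _ _ hins2 (fun _ => Nat.zero_le _)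
      have e2 := run_pushA M (c', Function.update (fun k => (S k).head?) k (some a0)) k
        (regs M S + sg none (dg M (some a0)))
      have e3 := run_pushB M (c', Function.update (fun k => (S k).head?) k (some a0)) k
        (Function.update (Function.update (regs M S + sg none (dg M (some a0))) (some k) 0) none
        ((regs M S + sg none (dg M (some a0)) : Option M.κ → ℕ) none +
          bb M * (regs M S + sg none (dg M (some a0)) : Option M.κ → ℕ) (some k)))
      rw [← e2, ← Function.iterate_add_apply, ← e1, ← Function.iterate_succ_apply] at e3
      refine ⟨_, e3.trans ?_⟩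
      refine Prod.ext (Prod.ext (Prod.ext rfl ?_) rfl) ?_
      · funext i
        by_cases hi : i = k
        · subst hi
          simp [enc, SOp.app]
        · simp [enc, SOp.app, hi]
      · funext i
        cases i with
        | none => simp [enc, regs]
        | some i =>
          by_cases hi : i = k
          · subst hi
            simp [enc, regs, SOp.app, cod, sg]
          · simp [enc, regs, SOp.app, sg, hi]
    | pop =>
      have hins2 : insAll M (enc M (c, S)).1 =
        some (sg (some k) (dg M (S k).head?), 0,
          ((c', fun k => (S k).head?), .popA k), ((c', fun k => (S k).head?), .main)) := hins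
      have e1 : stp (insAll M) (enc M (c, S)) =
          (((c', fun k => (S k).head?), .popA k),
            regs M S - sg (some k) (dg M (S k).head?)) := by
        refine stp_pos (insAll M) _ _ _ _ _ _ hins2 ?_
        intro i
        cases i with
        | none => simp [sg]
        | some i =>
          by_cases hi : i = k
          · subst hi
            have := cod_eq M (S i)
            simp only [sg, if_true, regs]
            omega
          · simp [sg, hi]
      have hx1 : (regs M S - sg (some k) (dg M (S k).head?)) (some k) = bb M * cod M (S k).tail := by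
        have := cod_eq M (S k)
        simp only [Pi.sub_apply, sg, if_true, regs]
        omega
      have e2 := run_popA M (c', fun k => (S k).head?) k
        (regs M S - sg (some k) (dg M (S k).head?)) (cod M (S k).tail) hx1
      have e3 := run_popB M (c', fun k => (S k).head?) k
        (Function.update (Function.update (regs M S - sg (some k) (dg M (S k).head?)) (some k) 0)
          none ((regs M S - sg (some k) (dg M (S k).head?)) none + cod M (S k).tail)) 0
      rw [← e2, ← Function.iterate_add_apply, ← e1, ← Function.iterate_succ_apply] at e3
      refine ⟨_, e3.trans ?_⟩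
      have hn : (regs M S - sg (some k) (dg M (S k).head?)) none = 0 := by
        simp [regs]
      simp only [hn, zero_add, Function.update_self]
      refine Prod.ext (Prod.ext (Prod.ext rfl ?_) rfl) ?_
      · rw [top_eq]
        funext i
        by_cases hi : i = k
        · subst hi
          simp [enc, SOp.app]
        · simp [enc, SOp.app, hi]
      · funext i
        cases i with
        | none => simp [enc, regs]
        | some i =>
          by_cases hi : i = k
          · subst hi
            simp [enc, regs, SOp.app]
          · simp [enc, regs, SOp.app, sg, hi]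

theorem stp_none {S R : Type} (ins : S → Option ((R → ℕ) × (R → ℕ) × S × S)) (c : S × (R → ℕ))
    (h : ins c.1 = none) : stp ins c = c := by
  simp only [stp, h]

theorem iter_halt {S R : Type} (ins : S → Option ((R → ℕ) × (R → ℕ) × S × S)) (c : S × (R → ℕ))
    (t : ℕ) (h : ins ((stp ins)^[t] c).1 = none)
    (t' : ℕ) (ht : t ≤ t') : ins ((stp ins)^[t'] c).1 = none := by
  induction t', ht using Nat.le_induction with
  | base => exact h
  | succ n _ ih =>
    rw [Function.iterate_succ_apply', stp_none ins _ ih]
    exact ih

theorem halts_iff' (n : ℕ) :
    (∃ t, insAll M ((stp (insAll M))^[t] (enc M (M.start n))).1 = none) ↔ ¬ M.Forever n := by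
  constructor
  · rintro ⟨T, hT⟩ ⟨f, h0, hf⟩
    have key : ∀ t, ∃ s, t ≤ s ∧ (stp (insAll M))^[s] (enc M (M.start n)) = enc M (f t) := by
      intro t
      induction t with
      | zero => exact ⟨0, le_rfl, by rw [h0]; rfl⟩
      | succ t ih =>
        obtain ⟨s, hs, hs2⟩ := ih
        obtain ⟨u, hu⟩ := sim M _ _ (hf t)
        refine ⟨u + 1 + s, by omega, ?_⟩
        rw [Function.iterate_add_apply, hs2, hu]
    obtain ⟨s, hs, hs2⟩ := key T
    have h2 := iter_halt (insAll M) _ T hT s hs
    rw [hs2] at h2
    exact enc_some M _ _ (hf T) h2
  · intro hnf
    by_contra hnh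
    apply hnf
    have key : ∀ (b : M.C × (M.κ → List M.A)) (s : ℕ),
        (stp (insAll M))^[s] (enc M (M.start n)) = enc M b → ∃ b', M.next b = some b' := by
      intro b s hs
      cases hb : M.next b with
      | none =>
        exfalso
        apply hnh
        refine ⟨s, ?_⟩
        rw [hs]
        exact enc_none M b hb
      | some b' => exact ⟨b', rfl⟩
    let f : ℕ → M.C × (M.κ → List M.A) := fun t =>
      Nat.rec (M.start n) (fun _ b => (M.next b).getD b) t
    have hf : ∀ t, f (t + 1) = (M.next (f t)).getD (f t) := fun t => rfl
    have hr : ∀ t, (∃ s, (stp (insAll M))^[s] (enc M (M.start n)) = enc M (f t)) := by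
      intro t
      induction t with
      | zero => exact ⟨0, rfl⟩
      | succ t ih =>
        obtain ⟨s, hs⟩ := ih
        obtain ⟨b', hb⟩ := key _ _ hs
        obtain ⟨u, hu⟩ := sim M _ _ hb
        refine ⟨u + 1 + s, ?_⟩
        rw [Function.iterate_add_apply, hs, hu, hf, hb]
        rfl
    refine ⟨f, rfl, fun t => ?_⟩
    obtain ⟨s, hs⟩ := hr t
    obtain ⟨b', hb⟩ := key _ _ hs
    rw [hf, hb]
    rfl

theorem next_eq : (mach M).next = stp (insAll M) := by
  funext c
  have h : (mach M).ins c.1 = insAll M c.1 := rfl
  unfold CM.next stp
  rw [h]
  cases insAll M c.1 with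
  | none => rfl
  | some y => rfl

theorem halts_iff (n : ℕ) : (mach M).Halts (enc M (M.start n)) ↔ ¬ M.Forever n := by
  rw [← halts_iff' M n]
  unfold CM.Halts
  rw [next_eq]
  rfl

theorem cod_start (n : ℕ) : cod M (List.replicate n M.a1 ++ [M.a2]) =
    (Nat.rec (dg M (some M.a2)) (fun _ y => dg M (some M.a1) + bb M * y) n : ℕ) := by
  induction n with
  | zero => simp [cod]
  | succ n ih =>
    rw [List.replicate_succ, List.cons_append, cod, ih]

end

end MachAux

open MachAux in
/-- there are a counter machine, a state `s0`, `s1`, a register `r` and constants `x0, A, B` such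
that halting on the inputs `x` with `x_{n+1} = A + B * x_n` in the register `r` is undecidable -/
theorem exists_CM : ∃ (M : CM) (s0 s1 : M.S) (r : M.R) (x0 A B : ℕ),
    ¬ ComputablePred (fun n : ℕ => M.Halts (if n = 0 then s0 else s1,
      fun i => open Classical in if i = r then (Nat.rec x0 (fun _ y => A + B * y) n : ℕ) else 0)) := by
  obtain ⟨M, hM⟩ := exists_SM
  refine ⟨mach M, ((M.c0, Function.update (fun _ => none) M.main (some M.a2)), .main),
    ((M.c0, Function.update (fun _ => none) M.main (some M.a1)), .main), some M.main,
    dg M (some M.a2), dg M (some M.a1), bb M, fun hc => hM ?_⟩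
  have e : (fun n : ℕ => (mach M).Halts
      (if n = 0 then (((M.c0, Function.update (fun _ => none) M.main (some M.a2)), .main) :
          (mach M).S)
        else ((M.c0, Function.update (fun _ => none) M.main (some M.a1)), .main),
      fun i => open Classical in if i = (some M.main : (mach M).R) then
        (Nat.rec (dg M (some M.a2)) (fun _ y => dg M (some M.a1) + bb M * y) n : ℕ) else 0)) =
      (fun n => ¬ M.Forever n) := by
    funext n
    rw [← halts_iff]
    congr 1
    refine Prod.ext ?_ ?_
    · cases n with
      | zero =>
        refine Prod.ext (Prod.ext rfl ?_) rfl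
        funext i
        by_cases hi : i = M.main
        · subst hi
          simp [enc, SM.start]
        · simp [enc, SM.start, hi]
      | succ n =>
        refine Prod.ext (Prod.ext rfl ?_) rfl
        funext i
        by_cases hi : i = M.main
        · subst hi
          simp [enc, SM.start, List.replicate_succ]
        · simp [enc, SM.start, hi]
    · funext i
      change _ = regs M (M.start n).2 i
      cases i with
      | none =>
        have : ¬ ((none : Option M.κ) = some M.main) := by simp
        simp only [regs]
        exact if_neg this
      | some i =>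
        by_cases hi : i = M.main
        · subst hi
          have h3 : regs M (M.start n).2 (some M.main) = cod M (List.replicate n M.a1 ++ [M.a2]) := by
            simp [regs, SM.start]
          rw [h3, cod_start]
          exact if_pos rfl
        · have : ¬ (some i = some M.main) := by simpa using hi
          have h3 : regs M (M.start n).2 (some i) = 0 := by
            simp [regs, SM.start, hi, cod]
          rw [h3]
          exact if_neg this
  have h2 := (congrArg ComputablePred e).mp hc
  have h3 := h2.not
  simpa using h3

end Braid60
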