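import Pool.Agent.Braid60.Affine

/-!
Module REP. The action of `B_4` on the free group `F₂ = ⟨u, v⟩`:
`σ₁ : u ↦ u, v ↦ v u`; `σ₂ : u ↦ u v⁻¹, v ↦ v`; `σ₃ : u ↦ u, v ↦ u v`.
With `κ = u v u⁻¹ v⁻¹`: `σ₁ κ = κ`, `σ₂ κ = κ`, `σ₃ κ = u κ u⁻¹`;
`(σ₁ σ₂)⁶ = conj κ⁻¹`, `(σ₂ σ₃)⁶ = conj (v⁻¹ κ⁻¹ v)`.
-/

set_option autoImplicit false

namespace Braid60

abbrev F2 := FreeGroup (Fin 2)

def u : F2 := FreeGroup.of 0
def v : F2 := FreeGroup.of 1

/-- the commutator -/
def kap : F2 := u * v * u⁻¹ * v⁻¹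

/-- `σ₁ : u ↦ u, v ↦ v u` -/
def R1 : MulAut F2 :=
  MonoidHom.toMulEquiv (FreeGroup.lift ![u, v * u]) (FreeGroup.lift ![u, v * u⁻¹])
    (by ext i; fin_cases i <;> simp [u, v]) (by ext i; fin_cases i <;> simp [u, v])

/-- `σ₂ : u ↦ u v⁻¹, v ↦ v` -/
def R2 : MulAut F2 :=
  MonoidHom.toMulEquiv (FreeGroup.lift ![u * v⁻¹, v]) (FreeGroup.lift ![u * v, v])
    (by ext i; fin_cases i <;> simp [u, v]) (by ext i; fin_cases i <;> simp [u, v])

/-- `σ₃ : u ↦ u, v ↦ u v` -/
def R3 : MulAut F2 :=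
  MonoidHom.toMulEquiv (FreeGroup.lift ![u, u * v]) (FreeGroup.lift ![u, u⁻¹ * v])
    (by ext i; fin_cases i <;> simp [u, v]) (by ext i; fin_cases i <;> simp [u, v])

theorem R1_u : R1 u = u := by
  change FreeGroup.lift ![u, v * u] (FreeGroup.of 0) = u
  rw [FreeGroup.lift_apply_of]; rfl

theorem R1_v : R1 v = v * u := by
  change FreeGroup.lift ![u, v * u] (FreeGroup.of 1) = v * u
  rw [FreeGroup.lift_apply_of]; rfl

theorem R2_u : R2 u = u * v⁻¹ := by
  change FreeGroup.lift ![u * v⁻¹, v] (FreeGroup.of 0) = u * v⁻¹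
  rw [FreeGroup.lift_apply_of]; rfl

theorem R2_v : R2 v = v := by
  change FreeGroup.lift ![u * v⁻¹, v] (FreeGroup.of 1) = v
  rw [FreeGroup.lift_apply_of]; rfl

theorem R3_u : R3 u = u := by
  change FreeGroup.lift ![u, u * v] (FreeGroup.of 0) = u
  rw [FreeGroup.lift_apply_of]; rfl

theorem R3_v : R3 v = u * v := by
  change FreeGroup.lift ![u, u * v] (FreeGroup.of 1) = u * v
  rw [FreeGroup.lift_apply_of]; rfl

/-- automorphisms agreeing on the generators are equal -/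
theorem aut_ext {f g : MulAut F2} (hu : f u = g u) (hv : f v = g v) : f = g := by
  have h : f.toMonoidHom = g.toMonoidHom := by
    apply FreeGroup.ext_hom
    intro i
    fin_cases i
    · exact hu
    · exact hv
  apply MulEquiv.ext
  intro x
  exact DFunLike.congr_fun h x

theorem R_01 : R1 * R2 * R1 = R2 * R1 * R2 := by
  apply aut_ext
  · simp only [MulAut.mul_apply, map_mul, map_inv, R1_u, R1_v, R2_u, R2_v]
    group
  · simp only [MulAut.mul_apply, map_mul, map_inv, R1_u, R1_v, R2_u, R2_v]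
    group

theorem R_12 : R2 * R3 * R2 = R3 * R2 * R3 := by
  apply aut_ext
  · simp only [MulAut.mul_apply, map_mul, map_inv, R2_u, R2_v, R3_u, R3_v]
    group
  · simp only [MulAut.mul_apply, map_mul, map_inv, R2_u, R2_v, R3_u, R3_v]
    group

theorem R_02 : R1 * R3 = R3 * R1 := by
  apply aut_ext
  · simp only [MulAut.mul_apply, R1_u, R3_u]
  · simp only [MulAut.mul_apply, map_mul, R1_u, R1_v, R3_u, R3_v]
    group

/-- the action of the braid group on the free group -/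
noncomputable def rep : B4 →* MulAut F2 := homOf ![R1, R2, R3] R_01 R_12 R_02

/-- the abelianisation of `F₂` -/
def lat : F2 →* Multiplicative (ℤ × ℤ) :=
  FreeGroup.lift ![Multiplicative.ofAdd (1, 0), Multiplicative.ofAdd (0, 1)]

/-- conjugators of the three points -/
def fk : Fin 3 → F2 := ![1, u, v⁻¹]

theorem lat_u : lat u = Multiplicative.ofAdd (1, 0) := by
  change FreeGroup.lift ![Multiplicative.ofAdd (1, 0), Multiplicative.ofAdd (0, 1)]
    (FreeGroup.of 0) = _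
  rw [FreeGroup.lift_apply_of]; rfl

theorem lat_v : lat v = Multiplicative.ofAdd (0, 1) := by
  change FreeGroup.lift ![Multiplicative.ofAdd (1, 0), Multiplicative.ofAdd (0, 1)]
    (FreeGroup.of 1) = _
  rw [FreeGroup.lift_apply_of]; rfl

theorem lat_fk (k : Fin 3) : (lat (fk k)).toAdd = pt k := by
  fin_cases k
  · change (lat 1).toAdd = (0, 0)
    rw [map_one]; rfl
  · change (lat u).toAdd = (1, 0)
    rw [lat_u]; rfl
  · change (lat v⁻¹).toAdd = (0, -1)
    rw [map_inv, lat_v]; rfl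

theorem rep_s (i : Fin 3) : rep (s i) = (![R1, R2, R3] : Fin 3 → MulAut F2) i :=
  homOf_s _ _ _ _ i

theorem R1_kap : R1 kap = kap := by
  simp only [kap, map_mul, map_inv, R1_u, R1_v]
  group

theorem R2_kap : R2 kap = kap := by
  simp only [kap, map_mul, map_inv, R2_u, R2_v]
  group

theorem R3_kap : R3 kap = u * kap * u⁻¹ := by
  simp only [kap, map_mul, map_inv, R3_u, R3_v]
  group

theorem T12_3u : (R1 * R2) ((R1 * R2) ((R1 * R2) u)) = v * u⁻¹ * v⁻¹ := by
  simp only [MulAut.mul_apply, map_mul, map_inv, R1_u, R1_v, R2_u, R2_v]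
  group

theorem T12_3v : (R1 * R2) ((R1 * R2) ((R1 * R2) v)) = v * u * v⁻¹ * u⁻¹ * v⁻¹ := by
  simp only [MulAut.mul_apply, map_mul, map_inv, R1_u, R1_v, R2_u, R2_v]
  group

theorem T23_3u : (R2 * R3) ((R2 * R3) ((R2 * R3) u)) = u * v⁻¹ * u⁻¹ * v * u⁻¹ := by
  simp only [MulAut.mul_apply, map_mul, map_inv, R3_u, R3_v, R2_u, R2_v]
  group

theorem T23_3v : (R2 * R3) ((R2 * R3) ((R2 * R3) v)) = u * v⁻¹ * u⁻¹ := by
  simp only [MulAut.mul_apply, map_mul, map_inv, R3_u, R3_v, R2_u, R2_v]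
  group

theorem pow6 (T : MulAut F2) (x : F2) : (T ^ 6) x = T (T (T (T (T (T x))))) := by
  simp only [pow_succ, pow_zero, one_mul, MulAut.mul_apply]

theorem T12_6 : (R1 * R2) ^ 6 = MulAut.conj kap⁻¹ := by
  apply aut_ext
  · rw [pow6, T12_3u]
    simp only [map_mul (R1 * R2), map_inv (R1 * R2), T12_3u, T12_3v, MulAut.conj_apply, kap]
    group
  · rw [pow6, T12_3v]
    simp only [map_mul (R1 * R2), map_inv (R1 * R2), T12_3u, T12_3v, MulAut.conj_apply, kap]
    group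

theorem T23_6 : (R2 * R3) ^ 6 = MulAut.conj (v⁻¹ * kap⁻¹ * v) := by
  apply aut_ext
  · rw [pow6, T23_3u]
    simp only [map_mul (R2 * R3), map_inv (R2 * R3), T23_3u, T23_3v, MulAut.conj_apply, kap]
    group
  · rw [pow6, T23_3v]
    simp only [map_mul (R2 * R3), map_inv (R2 * R3), T23_3u, T23_3v, MulAut.conj_apply, kap]
    group

/-- the points of the hexagon act as inner automorphisms -/
theorem rep_point (k : Fin 3) : rep (braidHex.p k) = MulAut.conj (fk k * kap * (fk k)⁻¹) := by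
  have h12 : rep ((s 0 * s 1) ^ 6)⁻¹ = MulAut.conj kap := by
    rw [map_inv, map_pow, map_mul, rep_s, rep_s]
    change ((R1 * R2) ^ 6)⁻¹ = _
    rw [T12_6, ← map_inv, inv_inv]
  change rep (bp k) = _
  fin_cases k
  · change rep (((s 0 * s 1) ^ 6)⁻¹) = MulAut.conj (1 * kap * 1⁻¹)
    rw [h12, one_mul, inv_one, mul_one]
  · change rep (s 2 * ((s 0 * s 1) ^ 6)⁻¹ * (s 2)⁻¹) = MulAut.conj (u * kap * u⁻¹)
    rw [map_mul, map_mul, h12, map_inv, rep_s]
    change R3 * MulAut.conj kap * R3⁻¹ = _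
    rw [← R3_kap]
    apply MulEquiv.ext
    intro x
    simp only [MulAut.mul_apply, MulAut.conj_apply, map_mul, map_inv, MulAut.apply_inv_self]
  · change rep (((s 1 * s 2) ^ 6)⁻¹) = MulAut.conj (v⁻¹ * kap * (v⁻¹)⁻¹)
    rw [map_inv, map_pow, map_mul, rep_s, rep_s]
    change ((R2 * R3) ^ 6)⁻¹ = _
    rw [T23_6, ← map_inv]
    congr 1

/-- an endomorphism acting linearly on the generators acts linearly on the abelianisation -/
theorem lat_lin (φ : F2 →* F2) (a b c d : ℤ) (hu : (lat (φ u)).toAdd = (a, b))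
    (hv : (lat (φ v)).toAdd = (c, d)) (f : F2) : (lat (φ f)).toAdd =
      ((lat f).toAdd.1 * a + (lat f).toAdd.2 * c, (lat f).toAdd.1 * b + (lat f).toAdd.2 * d) := by
  induction f using FreeGroup.induction_on with
  | C1 => simp only [map_one, toAdd_one, Prod.fst_zero, Prod.snd_zero, zero_mul, add_zero]; rfl
  | of i =>
    fin_cases i
    · change (lat (φ u)).toAdd = ((lat u).toAdd.1 * a + (lat u).toAdd.2 * c,
        (lat u).toAdd.1 * b + (lat u).toAdd.2 * d)
      rw [hu, lat_u]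
      simp
    · change (lat (φ v)).toAdd = ((lat v).toAdd.1 * a + (lat v).toAdd.2 * c,
        (lat v).toAdd.1 * b + (lat v).toAdd.2 * d)
      rw [hv, lat_v]
      simp
  | inv_of i h =>
    rw [map_inv, map_inv, toAdd_inv, h, map_inv, toAdd_inv]
    ext <;> simp <;> ring
  | mul x y hx hy =>
    rw [map_mul, map_mul, toAdd_mul, hx, hy, map_mul, toAdd_mul]
    ext <;> simp <;> ring

/-- the action on the conjugates of `κ` covers the affine action -/
theorem rep_conj (g : B4) (f : F2) : ∃ f' : F2,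
    rep g (f * kap * f⁻¹) = f' * kap * f'⁻¹ ∧ (lat f').toAdd = aff g (lat f).toAdd := by
  -- the generators and their inverses
  have hk1 : R1⁻¹ kap = kap := by
    conv_lhs => rw [← R1_kap]
    exact MulAut.inv_apply_self _ _ _
  have hk2 : R2⁻¹ kap = kap := by
    conv_lhs => rw [← R2_kap]
    exact MulAut.inv_apply_self _ _ _
  have hu3 : R3⁻¹ u = u := by
    conv_lhs => rw [← R3_u]
    exact MulAut.inv_apply_self _ _ _
  have hk3 : R3⁻¹ kap = u⁻¹ * kap * u := by
    have h1 : kap = R3 (u⁻¹ * kap * u) := by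
      rw [map_mul, map_mul, map_inv, R3_u, R3_kap]
      group
    conv_lhs => rw [h1]
    exact MulAut.inv_apply_self _ _ _
  have l1 : ∀ f, (lat (R1 f)).toAdd = A1 (lat f).toAdd := by
    intro f
    have := lat_lin R1.toMonoidHom 1 0 1 1
      (by change (lat (R1 u)).toAdd = _; rw [R1_u, lat_u]; rfl)
      (by change (lat (R1 v)).toAdd = _; rw [R1_v, map_mul, lat_u, lat_v]; rfl) f
    refine this.trans ?_
    ext <;> simp [A1]
  have l2 : ∀ f, (lat (R2 f)).toAdd = A2 (lat f).toAdd := by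
    intro f
    have := lat_lin R2.toMonoidHom 1 (-1) 0 1
      (by change (lat (R2 u)).toAdd = _; rw [R2_u, map_mul, map_inv, lat_u, lat_v]; rfl)
      (by change (lat (R2 v)).toAdd = _; rw [R2_v, lat_v]; rfl) f
    refine this.trans ?_
    ext <;> simp [A2]
    ring
  have l3 : ∀ f, (lat (R3 f * u)).toAdd = A3 (lat f).toAdd := by
    intro f
    have := lat_lin R3.toMonoidHom 1 0 1 1
      (by change (lat (R3 u)).toAdd = _; rw [R3_u, lat_u]; rfl)
      (by change (lat (R3 v)).toAdd = _; rw [R3_v, map_mul, lat_u, lat_v]; rfl) f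
    have h2 : (lat (R3 f)).toAdd = _ := this
    rw [map_mul, toAdd_mul, h2, lat_u]
    ext <;> simp [A3]
  have gen : ∀ (i : Fin 3) (f : F2), ∃ f' : F2,
      rep (s i) (f * kap * f⁻¹) = f' * kap * f'⁻¹ ∧ (lat f').toAdd = aff (s i) (lat f).toAdd := by
    intro i f
    rw [rep_s, aff_s]
    fin_cases i
    · change ∃ f' : F2, R1 (f * kap * f⁻¹) = f' * kap * f'⁻¹ ∧ (lat f').toAdd = A1 (lat f).toAdd
      exact ⟨R1 f, by rw [map_mul, map_mul, map_inv, R1_kap], l1 f⟩
    · change ∃ f' : F2, R2 (f * kap * f⁻¹) = f' * kap * f'⁻¹ ∧ (lat f').toAdd = A2 (lat f).toAdd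
      exact ⟨R2 f, by rw [map_mul, map_mul, map_inv, R2_kap], l2 f⟩
    · change ∃ f' : F2, R3 (f * kap * f⁻¹) = f' * kap * f'⁻¹ ∧ (lat f').toAdd = A3 (lat f).toAdd
      exact ⟨R3 f * u, by rw [map_mul, map_mul, map_inv, R3_kap]; group, l3 f⟩
  have geninv : ∀ (i : Fin 3) (f : F2), ∃ f' : F2,
      rep (s i)⁻¹ (f * kap * f⁻¹) = f' * kap * f'⁻¹ ∧
        (lat f').toAdd = aff (s i)⁻¹ (lat f).toAdd := by
    intro i f
    rw [map_inv, map_inv, rep_s, aff_s]
    fin_cases i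
    · change ∃ f' : F2, R1⁻¹ (f * kap * f⁻¹) = f' * kap * f'⁻¹ ∧
        (lat f').toAdd = A1⁻¹ (lat f).toAdd
      refine ⟨R1⁻¹ f, by rw [map_mul, map_mul, map_inv, hk1], ?_⟩
      rw [Equiv.Perm.eq_inv_iff_eq, ← l1, MulAut.apply_inv_self]
    · change ∃ f' : F2, R2⁻¹ (f * kap * f⁻¹) = f' * kap * f'⁻¹ ∧
        (lat f').toAdd = A2⁻¹ (lat f).toAdd
      refine ⟨R2⁻¹ f, by rw [map_mul, map_mul, map_inv, hk2], ?_⟩
      rw [Equiv.Perm.eq_inv_iff_eq, ← l2, MulAut.apply_inv_self]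
    · change ∃ f' : F2, R3⁻¹ (f * kap * f⁻¹) = f' * kap * f'⁻¹ ∧
        (lat f').toAdd = A3⁻¹ (lat f).toAdd
      refine ⟨R3⁻¹ f * u⁻¹, by rw [map_mul, map_mul, map_inv, hk3]; group, ?_⟩
      have e : R3 (R3⁻¹ f * u⁻¹) * u = f := by
        rw [map_mul, MulAut.apply_inv_self, map_inv, R3_u, inv_mul_cancel_right]
      rw [Equiv.Perm.eq_inv_iff_eq, ← l3, e]
  -- induction
  obtain ⟨w, rfl⟩ := PresentedGroup.mk_surjective rels g
  induction w using FreeGroup.induction_on generalizing f with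
  | C1 =>
    refine ⟨f, ?_, ?_⟩
    · rw [map_one, map_one]; rfl
    · rw [map_one, map_one]; rfl
  | of i => exact gen i f
  | inv_of i _ => exact geninv i f
  | mul x y hx hy =>
    obtain ⟨f₁, h1, h2⟩ := hy f
    obtain ⟨f₂, h3, h4⟩ := hx f₁
    have e1 : rep (PresentedGroup.mk rels (x * y)) =
        rep (PresentedGroup.mk rels x) * rep (PresentedGroup.mk rels y) := by
      rw [map_mul, map_mul]
    have e2 : aff (PresentedGroup.mk rels (x * y)) =
        aff (PresentedGroup.mk rels x) * aff (PresentedGroup.mk rels y) := by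
      rw [map_mul, map_mul]
    refine ⟨f₂, ?_, ?_⟩
    · rw [e1, MulAut.mul_apply, h1, h3]
    · rw [e2, Equiv.Perm.mul_apply, ← h2, h4]

end Braid60
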